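import Pool.Agent.Q96.NU.FrB

/-!
# Local analysis: no almost invariance under the rotation by a quarter turn
-/

namespace Q96.NU

open Complex

/-- expansion of the Euclidean square -/
theorem sq2_exp (u : ℂ × ℂ) (κ t : ℂ) :
    sq2 (u.1 + t * κ, u.2 + t) = sq2 u
      + 2 * (t * (κ * (starRingEnd ℂ) u.1 + (starRingEnd ℂ) u.2)).re + ‖t‖ ^ 2 * (1 + ‖κ‖ ^ 2) := by
  unfold sq2
  simp only [Complex.sq_norm, Complex.normSq_apply, Complex.add_re, Complex.add_im,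
    Complex.mul_re, Complex.mul_im, Complex.conj_re, Complex.conj_im]
  ring

/-- expansion of the quadratic form -/
theorem qq_exp (u : ℂ × ℂ) (κ t : ℂ) :
    qq (u.1 + t * κ, u.2 + t) = qq u
      + 2 * (t * ((starRingEnd ℂ) u.1 + κ * (starRingEnd ℂ) u.2)).re + 2 * ‖t‖ ^ 2 * κ.re := by
  unfold qq
  simp only [Complex.sq_norm, Complex.normSq_apply, Complex.add_re, Complex.add_im,
    Complex.mul_re, Complex.mul_im, Complex.conj_re, Complex.conj_im, map_add, map_mul]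
  ring

theorem abs_cos_sub_cos_le (x y : ℝ) : |Real.cos x - Real.cos y| ≤ |x - y| := by
  rw [Real.cos_sub_cos]
  have h1 : |Real.sin ((x + y) / 2)| ≤ 1 := Real.abs_sin_le_one _
  have h2 : |Real.sin ((x - y) / 2)| ≤ |(x - y) / 2| := Real.abs_sin_le_abs
  rw [abs_mul, abs_mul]
  have h3 : |(x - y) / 2| = |x - y| / 2 := by rw [abs_div, abs_two]
  rw [h3] at h2
  have h4 : |(-2 : ℝ)| = 2 := by norm_num
  rw [h4]
  nlinarith [abs_nonneg (Real.sin ((x + y) / 2)), abs_nonneg (Real.sin ((x - y) / 2)),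
    abs_nonneg (x - y)]

section

variable {r : ℝ} {u : ℂ × ℂ} {κ : ℂ}

/-- size of the Euclidean square -/
theorem sq2_near (h1 : ‖u.1 - 1‖ ≤ 1 / 1000) (h2 : ‖u.2‖ ≤ 1 / 1000) : |sq2 u - 1| ≤ 1 / 300 := by
  have a1 : ‖u.1‖ ≤ 1 + 1 / 1000 := by
    calc ‖u.1‖ = ‖1 + (u.1 - 1)‖ := by congr 1; ring
      _ ≤ ‖(1 : ℂ)‖ + ‖u.1 - 1‖ := norm_add_le _ _
      _ ≤ _ := by rw [norm_one]; linarith
  have a2 : 1 - 1 / 1000 ≤ ‖u.1‖ := by
    have : ‖(1 : ℂ)‖ ≤ ‖u.1‖ + ‖u.1 - 1‖ := by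
      calc ‖(1 : ℂ)‖ = ‖u.1 - (u.1 - 1)‖ := by congr 1; ring
        _ ≤ _ := norm_sub_le _ _
    rw [norm_one] at this
    linarith
  unfold sq2
  rw [abs_le]
  constructor
  · nlinarith [norm_nonneg u.2]
  · nlinarith [norm_nonneg u.2]

theorem qq_small (h1 : ‖u.1 - 1‖ ≤ 1 / 1000) (h2 : ‖u.2‖ ≤ 1 / 1000) : |qq u| ≤ 1 / 400 := by
  have a1 : ‖u.1‖ ≤ 1 + 1 / 1000 := by
    calc ‖u.1‖ = ‖1 + (u.1 - 1)‖ := by congr 1; ring
      _ ≤ ‖(1 : ℂ)‖ + ‖u.1 - 1‖ := norm_add_le _ _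
      _ ≤ _ := by rw [norm_one]; linarith
  have a2 : |((starRingEnd ℂ) u.1 * u.2).re| ≤ ‖u.1‖ * ‖u.2‖ := by
    calc |((starRingEnd ℂ) u.1 * u.2).re| ≤ ‖(starRingEnd ℂ) u.1 * u.2‖ := Complex.abs_re_le_norm _
      _ = ‖u.1‖ * ‖u.2‖ := by rw [norm_mul, RCLike.norm_conj]
  unfold qq
  rw [abs_mul, abs_two]
  nlinarith [norm_nonneg u.1, norm_nonneg u.2]

/-- the main estimate at one point -/
theorem point_est (hr : 0 < r) (hr1 : r ≤ 1 / 100000) (h1 : ‖u.1 - 1‖ ≤ 1 / 1000)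
    (h2 : ‖u.2‖ ≤ 1 / 1000) (h3 : ‖κ‖ ≤ 1 / 1000) {t : ℂ} (ht : ‖t‖ ≤ 4 * r) {y : ℝ}
    (hy : |y| ≤ 4)
    (hw : 2 * (t * ((starRingEnd ℂ) u.1 + κ * (starRingEnd ℂ) u.2
      - (qq u / sq2 u : ℝ) * (κ * (starRingEnd ℂ) u.1 + (starRingEnd ℂ) u.2))).re = r * y * sq2 u) :
    |fr r (u.1 + t * κ, u.2 + t) - sq2 (u.1 + t * κ, u.2 + t)
      - r ^ 2 / 100 * Real.cos (qq u / sq2 u / r + y)| ≤ r ^ 2 / 100 * (1 / 50) := by
  have hs := sq2_near h1 h2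
  have hq := qq_small h1 h2
  rw [abs_le] at hs
  have hs0 : 0 < sq2 u := by linarith [hs.1]
  have hu1 : ‖u.1‖ ≤ 1 + 1 / 1000 := by
    calc ‖u.1‖ = ‖1 + (u.1 - 1)‖ := by congr 1; ring
      _ ≤ ‖(1 : ℂ)‖ + ‖u.1 - 1‖ := norm_add_le _ _
      _ ≤ _ := by rw [norm_one]; linarith
  set g : ℝ := qq u / sq2 u with hg
  have hgb : |g| ≤ 1 / 300 := by
    rw [hg, abs_div, abs_of_pos hs0, div_le_iff₀ hs0]
    linarith [hs.1]
  set v : ℂ := κ * (starRingEnd ℂ) u.1 + (starRingEnd ℂ) u.2 with hv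
  have hvb : ‖v‖ ≤ 1 / 400 := by
    calc ‖v‖ ≤ ‖κ * (starRingEnd ℂ) u.1‖ + ‖(starRingEnd ℂ) u.2‖ := norm_add_le _ _
      _ = ‖κ‖ * ‖u.1‖ + ‖u.2‖ := by rw [norm_mul, RCLike.norm_conj, RCLike.norm_conj]
      _ ≤ _ := by nlinarith [norm_nonneg κ, norm_nonneg u.1]
  set S : ℝ := sq2 (u.1 + t * κ, u.2 + t) with hS
  set Q : ℝ := qq (u.1 + t * κ, u.2 + t) with hQ
  have hS1 : S = sq2 u + 2 * (t * v).re + ‖t‖ ^ 2 * (1 + ‖κ‖ ^ 2) := sq2_exp u κ t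
  have hQ1 := qq_exp u κ t
  rw [← hQ] at hQ1
  have ht0 := norm_nonneg t
  have hk0 := norm_nonneg κ
  have htv : |(t * v).re| ≤ ‖t‖ * (1 / 400) := by
    calc |(t * v).re| ≤ ‖t * v‖ := Complex.abs_re_le_norm _
      _ = ‖t‖ * ‖v‖ := norm_mul _ _
      _ ≤ _ := by gcongr
  have ht2 : ‖t‖ ^ 2 ≤ 16 * r ^ 2 := by nlinarith
  have hk2 : ‖κ‖ ^ 2 ≤ 1 / 1000000 := by nlinarith
  -- the difference of the squares
  have hSd : |S - sq2 u| ≤ r / 40 := by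
    rw [abs_le] at htv ⊢
    rw [hS1]
    have : 0 ≤ ‖t‖ ^ 2 * (1 + ‖κ‖ ^ 2) := by positivity
    have h5 : ‖t‖ ^ 2 * (1 + ‖κ‖ ^ 2) ≤ 16 * r ^ 2 * (1 + 1 / 1000000) := by gcongr
    constructor
    · nlinarith [htv.1]
    · nlinarith [htv.2]
  have hSd' := abs_le.mp hSd
  have hSpos : 1 / 2 ≤ S := by linarith [hSd'.1, hs.1]
  have hS1' : |S - 1| ≤ 1 / 100 := by
    rw [abs_le]; constructor <;> linarith [hSd'.1, hSd'.2, hs.1, hs.2]
  -- the angle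
  have hQS : Q - g * S = r * y * sq2 u + ‖t‖ ^ 2 * (2 * κ.re - g * (1 + ‖κ‖ ^ 2)) := by
    have e1 : (t * ((starRingEnd ℂ) u.1 + κ * (starRingEnd ℂ) u.2 - (g : ℂ) * v)).re
        = (t * ((starRingEnd ℂ) u.1 + κ * (starRingEnd ℂ) u.2)).re - g * (t * v).re := by
      rw [mul_sub, Complex.sub_re]
      congr 1
      rw [show t * ((g : ℂ) * v) = (g : ℂ) * (t * v) by ring, Complex.re_ofReal_mul]
    rw [e1] at hw
    have e2 : g * sq2 u = qq u := by rw [hg]; field_simp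
    rw [hS1, hQ1]
    linear_combination hw - e2
  have hkre : |κ.re| ≤ 1 / 1000 := (Complex.abs_re_le_norm κ).trans h3
  have hE : |2 * κ.re - g * (1 + ‖κ‖ ^ 2)| ≤ 1 / 100 := by
    rw [abs_le] at hkre hgb ⊢
    constructor
    · nlinarith [sq_nonneg ‖κ‖]
    · nlinarith [sq_nonneg ‖κ‖]
  have hA : |Q / (r * S) - (g / r + y)| ≤ 1 / 100 := by
    have hrS : 0 < r * S := by positivity
    have e3 : Q / (r * S) - (g / r + y) = (Q - g * S - r * y * S) / (r * S) := by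
      field_simp
      ring
    rw [e3, abs_div, abs_of_pos hrS, div_le_iff₀ hrS, hQS]
    have e4 : r * y * sq2 u + ‖t‖ ^ 2 * (2 * κ.re - g * (1 + ‖κ‖ ^ 2)) - r * y * S
        = r * y * (sq2 u - S) + ‖t‖ ^ 2 * (2 * κ.re - g * (1 + ‖κ‖ ^ 2)) := by ring
    rw [e4]
    have e5 : |r * y * (sq2 u - S)| ≤ r * 4 * (r / 40) := by
      rw [abs_mul, abs_mul, abs_of_pos hr, abs_sub_comm (sq2 u) S]
      gcongr
    have e6 : |‖t‖ ^ 2 * (2 * κ.re - g * (1 + ‖κ‖ ^ 2))| ≤ 16 * r ^ 2 * (1 / 100) := by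
      rw [abs_mul, abs_of_nonneg (by positivity : 0 ≤ ‖t‖ ^ 2)]
      gcongr
    have e7 := abs_add_le (r * y * (sq2 u - S)) (‖t‖ ^ 2 * (2 * κ.re - g * (1 + ‖κ‖ ^ 2)))
    nlinarith
  have hcos : |Real.cos (Q / (r * S)) - Real.cos (g / r + y)| ≤ 1 / 100 :=
    (abs_cos_sub_cos_le _ _).trans hA
  have hfr : fr r (u.1 + t * κ, u.2 + t) = S * (1 + r ^ 2 / 100 * Real.cos (Q / (r * S))) := rfl
  rw [hfr]
  have e8 : S * (1 + r ^ 2 / 100 * Real.cos (Q / (r * S))) - S - r ^ 2 / 100 * Real.cos (g / r + y)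
      = r ^ 2 / 100 * ((S - 1) * Real.cos (Q / (r * S))
        + (Real.cos (Q / (r * S)) - Real.cos (g / r + y))) := by ring
  rw [e8, abs_mul, abs_of_nonneg (by positivity : 0 ≤ r ^ 2 / 100)]
  have e9 : |(S - 1) * Real.cos (Q / (r * S))| ≤ 1 / 100 := by
    rw [abs_mul]
    calc |S - 1| * |Real.cos (Q / (r * S))| ≤ (1 / 100) * 1 := by
          gcongr
          exact Real.abs_cos_le_one _
      _ = 1 / 100 := by ring
  have e10 := abs_add_le ((S - 1) * Real.cos (Q / (r * S)))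
    (Real.cos (Q / (r * S)) - Real.cos (g / r + y))
  have : 0 ≤ r ^ 2 / 100 := by positivity
  apply mul_le_mul_of_nonneg_left _ this
  linarith

/-- the contradiction -/
theorem loc {δ' : ℝ} (hr : 0 < r) (hr1 : r ≤ 1 / 100000) (h1 : ‖u.1 - 1‖ ≤ 1 / 1000)
    (h2 : ‖u.2‖ ≤ 1 / 1000) (h3 : ‖κ‖ ≤ 1 / 1000) (hδ0 : 0 ≤ δ') (hδ : δ' ≤ 1 / 100000)
    (H : ∀ t : ℂ, fr r (u.1 + (I * t) * κ, u.2 + I * t) ≤ fr r (u.1 + t * κ, u.2 + t)
      + δ' * ‖t‖ ^ 2) : False := by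
  have hs := sq2_near h1 h2
  have hq := qq_small h1 h2
  rw [abs_le] at hs
  have hs0 : 0 < sq2 u := by linarith [hs.1]
  have hu1 : ‖u.1‖ ≤ 1 + 1 / 1000 := by
    calc ‖u.1‖ = ‖1 + (u.1 - 1)‖ := by congr 1; ring
      _ ≤ ‖(1 : ℂ)‖ + ‖u.1 - 1‖ := norm_add_le _ _
      _ ≤ _ := by rw [norm_one]; linarith
  set g : ℝ := qq u / sq2 u with hg
  have hgb : |g| ≤ 1 / 300 := by
    rw [hg, abs_div, abs_of_pos hs0, div_le_iff₀ hs0]
    linarith [hs.1]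
  set v : ℂ := κ * (starRingEnd ℂ) u.1 + (starRingEnd ℂ) u.2 with hv
  have hvb : ‖v‖ ≤ 1 / 400 := by
    calc ‖v‖ ≤ ‖κ * (starRingEnd ℂ) u.1‖ + ‖(starRingEnd ℂ) u.2‖ := norm_add_le _ _
      _ = ‖κ‖ * ‖u.1‖ + ‖u.2‖ := by rw [norm_mul, RCLike.norm_conj, RCLike.norm_conj]
      _ ≤ _ := by nlinarith [norm_nonneg κ, norm_nonneg u.1]
  set w : ℂ := (starRingEnd ℂ) u.1 + κ * (starRingEnd ℂ) u.2 - (g : ℂ) * v with hw
  have hw1 : ‖w - 1‖ ≤ 1 / 100 := by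
    have e : w - 1 = (starRingEnd ℂ) (u.1 - 1) + κ * (starRingEnd ℂ) u.2 - (g : ℂ) * v := by
      rw [hw, map_sub, map_one]; ring
    rw [e]
    calc ‖(starRingEnd ℂ) (u.1 - 1) + κ * (starRingEnd ℂ) u.2 - (g : ℂ) * v‖
        ≤ ‖(starRingEnd ℂ) (u.1 - 1) + κ * (starRingEnd ℂ) u.2‖ + ‖(g : ℂ) * v‖ := norm_sub_le _ _
      _ ≤ ‖(starRingEnd ℂ) (u.1 - 1)‖ + ‖κ * (starRingEnd ℂ) u.2‖ + ‖(g : ℂ) * v‖ := by
          gcongr; exact norm_add_le _ _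
      _ = ‖u.1 - 1‖ + ‖κ‖ * ‖u.2‖ + |g| * ‖v‖ := by
          rw [RCLike.norm_conj, norm_mul, norm_mul, RCLike.norm_conj, Complex.norm_real,
            Real.norm_eq_abs]
      _ ≤ 1 / 1000 + 1 / 1000 * (1 / 1000) + 1 / 300 * (1 / 400) := by gcongr
      _ ≤ 1 / 100 := by norm_num
  have hwn : 99 / 100 ≤ ‖w‖ := by
    have : ‖(1 : ℂ)‖ ≤ ‖w‖ + ‖w - 1‖ := by
      calc ‖(1 : ℂ)‖ = ‖w - (w - 1)‖ := by congr 1; ring
        _ ≤ _ := norm_sub_le _ _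
    rw [norm_one] at this
    linarith
  have hw0 : w ≠ 0 := by
    intro h; rw [h, norm_zero] at hwn; linarith
  -- the basic direction
  set b : ℂ := ((r * sq2 u / 2 : ℝ) : ℂ) / w with hb
  have hbn : ‖b‖ ≤ r := by
    rw [hb, norm_div, Complex.norm_real, Real.norm_of_nonneg (by positivity), div_le_iff₀ (by linarith)]
    nlinarith [hs.2]
  have hbw : b * w = ((r * sq2 u / 2 : ℝ) : ℂ) := by rw [hb]; field_simp
  set ℓ : ℝ := 2 * (b * v).re - 2 * (I * b * v).re with hℓ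
  -- the estimate for one x
  have main : ∀ x : ℝ, |x| ≤ 4 →
      |x * ℓ + r ^ 2 / 100 * (Real.cos (g / r + x) - Real.cos (g / r))| ≤ r ^ 2 / 100 * (1 / 10) := by
    intro x hx
    set t : ℂ := (x : ℂ) * b with ht
    have htn : ‖t‖ ≤ 4 * r := by
      rw [ht, norm_mul, Complex.norm_real, Real.norm_eq_abs]
      gcongr
    have hItn : ‖I * t‖ ≤ 4 * r := by rw [norm_mul, Complex.norm_I, one_mul]; exact htn
    have p1 := point_est hr hr1 h1 h2 h3 htn hx (by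
      rw [← hg, ← hv, ← hw, ht, mul_assoc, hbw, Complex.re_ofReal_mul, Complex.ofReal_re]
      ring)
    have p2 := point_est hr hr1 h1 h2 h3 hItn (y := 0) (by simp) (by
      rw [← hg, ← hv, ← hw, ht]
      rw [show I * ((x : ℂ) * b) * w = ((x : ℝ) : ℂ) * (I * (b * w)) by ring, hbw,
        Complex.re_ofReal_mul]
      simp)
    rw [add_zero, ← hg] at p2
    rw [← hg] at p1
    -- four rotations
    have q1 := H t
    have q2 := H (I * t)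
    have q3 := H (I * (I * t))
    have q4 := H (I * (I * (I * t)))
    have n1 : ‖I * t‖ = ‖t‖ := by rw [norm_mul, Complex.norm_I, one_mul]
    have n2 : ‖I * (I * t)‖ = ‖t‖ := by rw [norm_mul, Complex.norm_I, one_mul, n1]
    have n3 : ‖I * (I * (I * t))‖ = ‖t‖ := by rw [norm_mul, Complex.norm_I, one_mul, n2]
    have n4 : I * (I * (I * (I * t))) = t := by
      have : I * I = -1 := Complex.I_mul_I
      linear_combination (I * I - 1) * t * this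
    rw [n4, n3] at q4
    rw [n2] at q3
    rw [n1] at q2
    set Dt := fr r (u.1 + t * κ, u.2 + t) with hDt
    set Di := fr r (u.1 + I * t * κ, u.2 + I * t) with hDi
    have r1 : |Dt - Di| ≤ 3 * δ' * ‖t‖ ^ 2 := by
      rw [abs_le]
      have : 0 ≤ δ' * ‖t‖ ^ 2 := by positivity
      constructor <;> linarith
    have r2 : 3 * δ' * ‖t‖ ^ 2 ≤ r ^ 2 / 100 * (48 / 1000) := by
      have : ‖t‖ ^ 2 ≤ 16 * r ^ 2 := by nlinarith [norm_nonneg t]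
      calc 3 * δ' * ‖t‖ ^ 2 ≤ 3 * (1 / 100000) * (16 * r ^ 2) := by gcongr
        _ = r ^ 2 / 100 * (48 / 1000) := by ring
    have r3 : sq2 (u.1 + t * κ, u.2 + t) - sq2 (u.1 + I * t * κ, u.2 + I * t) = x * ℓ := by
      rw [sq2_exp, sq2_exp, n1, ← hv, hℓ, ht]
      rw [show (x : ℂ) * b * v = (x : ℂ) * (b * v) by ring,
        show I * ((x : ℂ) * b) * v = (x : ℂ) * (I * b * v) by ring, Complex.re_ofReal_mul,
        Complex.re_ofReal_mul]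
      ring
    have e : x * ℓ + r ^ 2 / 100 * (Real.cos (g / r + x) - Real.cos (g / r))
        = (Dt - Di) - (Dt - sq2 (u.1 + t * κ, u.2 + t) - r ^ 2 / 100 * Real.cos (g / r + x))
          + (Di - sq2 (u.1 + I * t * κ, u.2 + I * t) - r ^ 2 / 100 * Real.cos (g / r)) := by
      rw [← r3]; ring
    rw [e]
    rw [abs_le] at p1 p2 r1 ⊢
    have : 0 ≤ r ^ 2 / 100 := by positivity
    constructor <;> nlinarith [p1.1, p1.2, p2.1, p2.2, r1.1, r1.2]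
  -- three values
  have hpi := Real.pi_pos
  have hpi4 := Real.pi_lt_four
  set m : ℝ := r ^ 2 / 100 with hm
  have hm0 : 0 < m := by positivity
  set c₀ := Real.cos (g / r) with hc₀
  set s₀ := Real.sin (g / r) with hs₀
  have a1 := main Real.pi (by rw [abs_of_pos hpi]; exact hpi4.le)
  have a2 := main (-Real.pi) (by rw [abs_neg, abs_of_pos hpi]; exact hpi4.le)
  have a3 := main (Real.pi / 2) (by rw [abs_of_pos (by positivity)]; linarith)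
  rw [Real.cos_add_pi] at a1
  rw [← sub_eq_add_neg, Real.cos_sub_pi] at a2
  rw [Real.cos_add_pi_div_two] at a3
  rw [← hs₀] at a3
  rw [abs_le] at a1 a2 a3
  have hcs : s₀ ^ 2 + c₀ ^ 2 = 1 := Real.sin_sq_add_cos_sq _
  -- bounds for cos and sin, divided by m
  have b1 : |c₀| ≤ 1 / 20 := by
    rw [abs_le]
    constructor
    · by_contra hcon
      push Not at hcon
      nlinarith [a1.1, a1.2, a2.1, a2.2]
    · by_contra hcon
      push Not at hcon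
      nlinarith [a1.1, a1.2, a2.1, a2.2]
  have b2 : |s₀| ≤ 1 / 4 := by
    rw [abs_le] at b1 ⊢
    constructor
    · by_contra hcon
      push Not at hcon
      nlinarith [a1.1, a1.2, a3.1, a3.2, b1.1, b1.2]
    · by_contra hcon
      push Not at hcon
      nlinarith [a1.1, a1.2, a3.1, a3.2, b1.1, b1.2]
  have b3 : c₀ ^ 2 ≤ (1 / 20) ^ 2 := by
    rw [← sq_abs]; gcongr
  have b4 : s₀ ^ 2 ≤ (1 / 4) ^ 2 := by
    rw [← sq_abs]; gcongr
  nlinarith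

end

end Q96.NU
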