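import Pool.Agent.Q96.NU.Stm

/-!
# Consequences of the two-sided quadratic estimate
-/

namespace Q96.NU

open Filter Topology

variable {X : Type*} [NormedAddCommGroup X] [NormedSpace ℂ X]

/-- (a1) -/
theorem unif_conv {c C : ℝ} (hc : 0 < c) (hQ : Quad X c C) {x y : X} {f : X →L[ℂ] ℂ}
    (hx : IsPi x f) (hy : ‖y‖ ≤ 1) {d : ℝ} (hd : 1 - d ≤ (f y).re) :
    ‖x - y‖ ≤ 2 * Real.sqrt (d / c) := by
  obtain ⟨h1, h2, h3⟩ := hx
  have hd0 : 0 ≤ d := by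
    have : (f y).re ≤ 1 := by
      calc (f y).re ≤ ‖f y‖ := Complex.re_le_norm _
        _ ≤ ‖f‖ * ‖y‖ := f.le_opNorm y
        _ ≤ 1 := by rw [h2, one_mul]; exact hy
    linarith
  set u : X := (2⁻¹ : ℂ) • (x + y) with hu
  set v : X := (2⁻¹ : ℂ) • (x - y) with hv
  have huv : u + v = x := by
    rw [hu, hv, ← smul_add]
    rw [show x + y + (x - y) = (2 : ℂ) • x by rw [two_smul]; abel]
    rw [smul_smul]; norm_num
  have huv' : u - v = y := by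
    rw [hu, hv, ← smul_sub]
    rw [show x + y - (x - y) = (2 : ℂ) • y by rw [two_smul]; abel]
    rw [smul_smul]; norm_num
  have hnu : 1 - d / 2 ≤ ‖u‖ := by
    have e : (f u).re = (1 + (f y).re) / 2 := by
      rw [hu, map_smul, map_add, h3]
      simp
      ring
    calc 1 - d / 2 ≤ (f u).re := by rw [e]; linarith
      _ ≤ ‖f u‖ := Complex.re_le_norm _
      _ ≤ ‖f‖ * ‖u‖ := f.le_opNorm u
      _ = ‖u‖ := by rw [h2, one_mul]
  have h4 := (hQ u v).1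
  rw [huv, huv', h1] at h4
  have h5 : c * ‖v‖ ^ 2 ≤ d := by
    have hy2 : ‖y‖ ^ 2 ≤ 1 := by nlinarith [norm_nonneg y]
    by_cases hd2 : d ≤ 2
    · have : (1 - d / 2) ^ 2 ≤ ‖u‖ ^ 2 := by
        apply pow_le_pow_left₀ (by linarith) hnu
      nlinarith
    · nlinarith [sq_nonneg ‖u‖]
  have h6 : ‖x - y‖ = 2 * ‖v‖ := by
    rw [hv, norm_smul]
    simp
  rw [h6]
  have h7 : ‖v‖ ≤ Real.sqrt (d / c) := by
    apply Real.le_sqrt_of_sq_le
    rw [le_div_iff₀ hc]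
    linarith
  linarith

/-- strict convexity -/
theorem eq_of_pi {c C : ℝ} (hc : 0 < c) (hQ : Quad X c C) {x y : X} {f : X →L[ℂ] ℂ}
    (hx : IsPi x f) (hy : ‖y‖ ≤ 1) (h : f y = 1) : y = x := by
  have := unif_conv hc hQ hx hy (d := 0) (by rw [h]; simp)
  rw [zero_div, Real.sqrt_zero, mul_zero] at this
  have h2 := norm_le_zero_iff.mp this
  exact (sub_eq_zero.mp h2).symm

/-- (a2) -/
theorem unif_smooth {c C : ℝ} (hC : 0 < C) (hQ : Quad X c C) {x : X} {f g : X →L[ℂ] ℂ}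
    (hx : IsPi x f) (hg : ‖g‖ ≤ 1) {d : ℝ} (hd0 : 0 < d) (hd : 1 - d ≤ (g x).re) :
    ‖g - f‖ ≤ 2 * Real.sqrt (C * d) := by
  obtain ⟨h1, h2, h3⟩ := hx
  -- the basic estimate
  have key : ∀ h : X, ((g - f) h).re ≤ d + C * ‖h‖ ^ 2 := by
    intro h
    have e1 : (g (x + h)).re ≤ ‖x + h‖ := by
      calc (g (x + h)).re ≤ ‖g (x + h)‖ := Complex.re_le_norm _
        _ ≤ ‖g‖ * ‖x + h‖ := g.le_opNorm _
        _ ≤ 1 * ‖x + h‖ := by gcongr
        _ = ‖x + h‖ := one_mul _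
    have e2 : (f (x - h)).re ≤ ‖x - h‖ := by
      calc (f (x - h)).re ≤ ‖f (x - h)‖ := Complex.re_le_norm _
        _ ≤ ‖f‖ * ‖x - h‖ := f.le_opNorm _
        _ = ‖x - h‖ := by rw [h2, one_mul]
    have e3 := (hQ x h).2
    rw [h1] at e3
    have e4 : ‖x + h‖ + ‖x - h‖ ≤ 2 + C * ‖h‖ ^ 2 := by
      have hCh : 0 ≤ C * ‖h‖ ^ 2 := by positivity
      have e5 : (‖x + h‖ + ‖x - h‖) ^ 2 ≤ (2 + C * ‖h‖ ^ 2) ^ 2 := by
        nlinarith [sq_nonneg (‖x + h‖ - ‖x - h‖), sq_nonneg (C * ‖h‖ ^ 2)]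
      exact le_of_sq_le_sq e5 (by positivity)
    have e6 : (g (x + h)).re + (f (x - h)).re = (g x).re + 1 + ((g - f) h).re := by
      rw [map_add, map_sub, h3, sub_apply]
      simp
      ring
    linarith
  -- scaling
  have hB : ∀ y : X, ‖(g - f) y‖ ≤ 2 * Real.sqrt (C * d) * ‖y‖ := by
    intro y
    by_cases hy : y = 0
    · simp [hy]
    have hy0 : 0 < ‖y‖ := norm_pos_iff.mpr hy
    obtain ⟨ζ, hζ, hζ2⟩ : ∃ ζ : ℂ, ‖ζ‖ = 1 ∧ ζ * (g - f) y = ‖(g - f) y‖ := by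
      by_cases h0 : (g - f) y = 0
      · exact ⟨1, by simp, by simp [h0]⟩
      · refine ⟨(starRingEnd ℂ) ((g - f) y) / ‖(g - f) y‖, ?_, ?_⟩
        · rw [norm_div, RCLike.norm_conj, Complex.norm_real, norm_norm, div_self]
          exact norm_ne_zero_iff.mpr h0
        · rw [div_mul_eq_mul_div, mul_comm, Complex.mul_conj, Complex.normSq_eq_norm_sq]
          have : (‖(g - f) y‖ : ℂ) ≠ 0 := by
            exact_mod_cast norm_ne_zero_iff.mpr h0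
          rw [div_eq_iff this]
          push_cast
          ring
    set t : ℝ := Real.sqrt (d / C) / ‖y‖ with ht
    have ht0 : 0 < t := by
      rw [ht]; apply div_pos _ hy0; exact Real.sqrt_pos.mpr (div_pos hd0 hC)
    have k := key (((t : ℂ) * ζ) • y)
    rw [map_smul, smul_eq_mul, mul_assoc, hζ2, norm_smul, norm_mul, hζ, mul_one,
      Complex.norm_real, Real.norm_of_nonneg ht0.le] at k
    have k2 : ((t : ℂ) * (‖(g - f) y‖ : ℂ)).re = t * ‖(g - f) y‖ := by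
      rw [← Complex.ofReal_mul, Complex.ofReal_re]
    rw [k2] at k
    have k3 : t * ‖y‖ = Real.sqrt (d / C) := by rw [ht]; field_simp
    have k4 : (t * ‖y‖) ^ 2 = d / C := by rw [k3, Real.sq_sqrt (by positivity)]
    rw [k4, mul_div_cancel₀ d hC.ne'] at k
    have k5 : ‖(g - f) y‖ ≤ 2 * d / t := by
      rw [le_div_iff₀ ht0]; linarith
    refine k5.trans (le_of_eq ?_)
    rw [ht, div_div_eq_mul_div]
    have k6 : Real.sqrt (C * d) * Real.sqrt (d / C) = d := by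
      rw [← Real.sqrt_mul (by positivity)]
      rw [show C * d * (d / C) = d ^ 2 by field_simp]
      exact Real.sqrt_sq hd0.le
    have k7 : 0 < Real.sqrt (d / C) := Real.sqrt_pos.mpr (div_pos hd0 hC)
    rw [div_eq_iff k7.ne']
    calc 2 * d * ‖y‖ = 2 * (Real.sqrt (C * d) * Real.sqrt (d / C)) * ‖y‖ := by rw [k6]
      _ = _ := by ring
  exact ContinuousLinearMap.opNorm_le_bound _ (by positivity) hB

/-- smoothness: the norming functional is unique -/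
theorem eq_of_pi' {c C : ℝ} (hC : 0 < C) (hQ : Quad X c C) {x : X} {f g : X →L[ℂ] ℂ}
    (hx : IsPi x f) (hg : ‖g‖ ≤ 1) (h : g x = 1) : g = f := by
  have h1 : ∀ d : ℝ, 0 < d → ‖g - f‖ ≤ 2 * Real.sqrt (C * d) := by
    intro d hd
    exact unif_smooth hC hQ hx hg hd (by rw [h]; simp; linarith)
  have h2 : Tendsto (fun d : ℝ => 2 * Real.sqrt (C * d)) (𝓝[>] 0) (𝓝 0) := by
    have : Continuous (fun d : ℝ => 2 * Real.sqrt (C * d)) := by fun_prop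
    have h3 := this.tendsto 0
    simp only [mul_zero, Real.sqrt_zero] at h3
    exact h3.mono_left nhdsWithin_le_nhds
  have h4 : ‖g - f‖ ≤ 0 := by
    apply ge_of_tendsto h2
    filter_upwards [self_mem_nhdsWithin] with d hd
    exact h1 d hd
  exact sub_eq_zero.mp (norm_le_zero_iff.mp h4)

/-- the square of the norm on the kernel of the norming functional, moved to `x` -/
theorem ker_le {c C : ℝ} (hQ : Quad X c C) {x : X} {f : X →L[ℂ] ℂ}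
    (hx : IsPi x f) {k : X} (hk : f k = 0) : 1 ≤ ‖x + k‖ ^ 2 ∧ ‖x + k‖ ^ 2 ≤ 1 + 2 * C * ‖k‖ ^ 2 := by
  obtain ⟨h1, h2, h3⟩ := hx
  have low : ∀ k : X, f k = 0 → 1 ≤ ‖x + k‖ ^ 2 := by
    intro k hk
    have : 1 ≤ ‖x + k‖ := by
      calc (1 : ℝ) = ‖f (x + k)‖ := by rw [map_add, h3, hk]; simp
        _ ≤ ‖f‖ * ‖x + k‖ := f.le_opNorm _
        _ = ‖x + k‖ := by rw [h2, one_mul]
    nlinarith
  refine ⟨low k hk, ?_⟩
  have h4 := (hQ x k).2
  have h5 : 1 ≤ ‖x - k‖ ^ 2 := by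
    have := low (-k) (by rw [map_neg, hk, neg_zero])
    rwa [← sub_eq_add_neg] at this
  rw [h1] at h4
  linarith

/-- moving a point in the kernel -/
theorem ker_move {c C : ℝ} (hC : 0 < C) (hQ : Quad X c C) {x : X} {f : X →L[ℂ] ℂ}
    (hx : IsPi x f) {k k' : X} (hk : f k = 0) (hk' : f k' = 0) :
    ‖x + k‖ ^ 2 ≤ ‖x + k'‖ ^ 2 + 8 * C * (‖k'‖ + ‖k - k'‖) * ‖k - k'‖ := by
  by_cases he : k - k' = 0
  · rw [sub_eq_zero.mp he]
    simp
  set e : X := k - k' with hedef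
  have he0 : 0 < ‖e‖ := norm_pos_iff.mpr he
  set R : ℝ := (‖k'‖ + ‖e‖) / ‖e‖ with hR
  have hR1 : 1 ≤ R := by
    rw [hR, le_div_iff₀ he0]; linarith [norm_nonneg k']
  have hR0 : 0 < R := by linarith
  have hRe : R * ‖e‖ = ‖k'‖ + ‖e‖ := by rw [hR]; field_simp
  -- convexity of the square of the norm
  have conv : ‖x + k‖ ^ 2 ≤ (1 - 1 / R) * ‖x + k'‖ ^ 2 + 1 / R * ‖x + (k' + (R : ℂ) • e)‖ ^ 2 := by
    have e1 : x + k = ((1 - 1 / R : ℝ) : ℂ) • (x + k') + ((1 / R : ℝ) : ℂ) • (x + (k' + (R : ℂ) • e)) := by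
      have hRc : (R : ℂ) ≠ 0 := by exact_mod_cast hR0.ne'
      have : k = k' + e := by rw [hedef]; abel
      rw [this]
      push_cast
      have h8 : (1 / (R : ℂ)) • (x + (k' + (R : ℂ) • e)) = (1 / (R : ℂ)) • (x + k') + e := by
        rw [← add_assoc, smul_add, smul_smul, one_div_mul_cancel hRc, one_smul]
      rw [h8, sub_smul, one_smul]
      abel
    have hp : 0 ≤ 1 / R := by positivity
    have hq : 0 ≤ 1 - 1 / R := by
      rw [sub_nonneg, div_le_one hR0]; exact hR1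
    have e2 : ‖x + k‖ ≤ (1 - 1 / R) * ‖x + k'‖ + 1 / R * ‖x + (k' + (R : ℂ) • e)‖ := by
      calc ‖x + k‖ = ‖((1 - 1 / R : ℝ) : ℂ) • (x + k') + ((1 / R : ℝ) : ℂ) • (x + (k' + (R : ℂ) • e))‖ := by
            rw [← e1]
        _ ≤ ‖((1 - 1 / R : ℝ) : ℂ) • (x + k')‖ + ‖((1 / R : ℝ) : ℂ) • (x + (k' + (R : ℂ) • e))‖ :=
            norm_add_le _ _
        _ = _ := by
            rw [norm_smul, norm_smul, Complex.norm_real, Complex.norm_real,
              Real.norm_of_nonneg hp, Real.norm_of_nonneg hq]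
    set a := ‖x + k'‖
    set b := ‖x + (k' + (R : ℂ) • e)‖
    have e3 : ‖x + k‖ ^ 2 ≤ ((1 - 1 / R) * a + 1 / R * b) ^ 2 :=
      pow_le_pow_left₀ (norm_nonneg _) e2 2
    have e4 : ((1 - 1 / R) * a + 1 / R * b) ^ 2 ≤ (1 - 1 / R) * a ^ 2 + 1 / R * b ^ 2 := by
      have : (1 - 1 / R) * a ^ 2 + 1 / R * b ^ 2 - ((1 - 1 / R) * a + 1 / R * b) ^ 2
          = (1 - 1 / R) * (1 / R) * (a - b) ^ 2 := by ring
      have h0 : 0 ≤ (1 - 1 / R) * (1 / R) * (a - b) ^ 2 := by positivity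
      linarith
    linarith
  have k1 := (ker_le hQ hx hk').1
  have k2 := (ker_le hQ hx (k := k' + (R : ℂ) • e) (by
    rw [map_add, map_smul, hk', hedef, map_sub, hk, hk']; simp)).2
  have k3 : ‖k' + (R : ℂ) • e‖ ≤ 2 * (‖k'‖ + ‖e‖) := by
    calc ‖k' + (R : ℂ) • e‖ ≤ ‖k'‖ + ‖(R : ℂ) • e‖ := norm_add_le _ _
      _ = ‖k'‖ + R * ‖e‖ := by rw [norm_smul, Complex.norm_real, Real.norm_of_nonneg hR0.le]
      _ ≤ _ := by rw [hRe]; linarith [norm_nonneg e]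
  have k4 : ‖k' + (R : ℂ) • e‖ ^ 2 ≤ (2 * (‖k'‖ + ‖e‖)) ^ 2 := pow_le_pow_left₀ (norm_nonneg _) k3 2
  have hp : 0 < 1 / R := by positivity
  have k5 : ‖x + (k' + (R : ℂ) • e)‖ ^ 2 ≤ 1 + 2 * C * (2 * (‖k'‖ + ‖e‖)) ^ 2 := by
    refine k2.trans ?_
    have : 0 ≤ 2 * C := by positivity
    nlinarith
  have k6 : 1 / R = ‖e‖ / (‖k'‖ + ‖e‖) := by rw [hR, one_div_div]
  have k7 : 1 / R * (2 * C * (2 * (‖k'‖ + ‖e‖)) ^ 2) = 8 * C * (‖k'‖ + ‖e‖) * ‖e‖ := by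
    rw [k6]
    have : ‖k'‖ + ‖e‖ ≠ 0 := by
      have := norm_nonneg k'
      positivity
    field_simp
    ring
  calc ‖x + k‖ ^ 2 ≤ (1 - 1 / R) * ‖x + k'‖ ^ 2 + 1 / R * ‖x + (k' + (R : ℂ) • e)‖ ^ 2 := conv
    _ ≤ (1 - 1 / R) * ‖x + k'‖ ^ 2 + 1 / R * (1 + 2 * C * (2 * (‖k'‖ + ‖e‖)) ^ 2) := by
        gcongr
    _ = ‖x + k'‖ ^ 2 - 1 / R * (‖x + k'‖ ^ 2 - 1) + 1 / R * (2 * C * (2 * (‖k'‖ + ‖e‖)) ^ 2) := by ring
    _ ≤ ‖x + k'‖ ^ 2 + 8 * C * (‖k'‖ + ‖e‖) * ‖e‖ := by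
        rw [k7]
        have : 0 ≤ 1 / R * (‖x + k'‖ ^ 2 - 1) := mul_nonneg hp.le (by linarith)
        linarith

end Q96.NU
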