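import Pool.Agent.Q96.NU.Op
import Pool.Agent.Q96.NU.Loc
import Pool.Agent.Q96.NU.Uni

/-!
# The sum space fails property (nu)
-/

namespace Q96.NU

open Complex

/-- changing one coordinate -/
theorem single_add_sq (x : XX) (n : ℕ) (v v' : Pl n) :
    ‖x + lp.single 2 n v‖ ^ 2 - ‖x + lp.single 2 n v'‖ ^ 2 = ‖x n + v‖ ^ 2 - ‖x n + v'‖ ^ 2 := by
  have h := (hasSum_sq (x + lp.single 2 n v)).sub (hasSum_sq (x + lp.single 2 n v'))
  have h2 : HasSum (fun m => ‖(x + lp.single 2 n v) m‖ ^ 2 - ‖(x + lp.single 2 n v') m‖ ^ 2)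
      (‖(x + lp.single 2 n v) n‖ ^ 2 - ‖(x + lp.single 2 n v') n‖ ^ 2) := by
    apply hasSum_single n
    intro m hm
    have e1 : (x + lp.single 2 n v) m = x m := by
      change x m + (lp.single 2 n v) m = x m
      rw [lp.single_apply_ne 2 n v hm, add_zero]
    have e2 : (x + lp.single 2 n v') m = x m := by
      change x m + (lp.single 2 n v') m = x m
      rw [lp.single_apply_ne 2 n v' hm, add_zero]
    rw [e1, e2, sub_self]
  have e3 : (x + lp.single 2 n v) n = x n + v := by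
    change x n + (lp.single 2 n v) n = x n + v
    rw [lp.single_apply_self]
  have e4 : (x + lp.single 2 n v') n = x n + v' := by
    change x n + (lp.single 2 n v') n = x n + v'
    rw [lp.single_apply_self]
  rw [e3, e4] at h2
  exact h.unique h2

theorem exists_scale {η : ℝ} (hη : 0 < η) : ∃ n : ℕ, rr n ≤ 1 / 100000000 ∧ 9 * rr n ^ 2 < η := by
  obtain ⟨n, hn⟩ := exists_nat_gt (max 100000000 (9 / η))
  have h1 : (100000000 : ℝ) < n := lt_of_le_of_lt (le_max_left _ _) hn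
  have h2 : 9 / η < n := lt_of_le_of_lt (le_max_right _ _) hn
  refine ⟨n, ?_, ?_⟩
  · unfold rr
    apply one_div_le_one_div_of_le (by norm_num)
    linarith
  · have h3 : 9 < n * η := by rwa [div_lt_iff₀ hη] at h2
    have hr0 := rr_pos n
    have hr1 := rr_le n
    have h4 : rr n * ((n : ℝ) + 1) = 1 := by unfold rr; field_simp
    have h5 : 9 * rr n < η := by
      by_contra hcon
      push Not at hcon
      have : η * ((n : ℝ) + 1) ≤ 9 * rr n * ((n : ℝ) + 1) := by gcongr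
      nlinarith
    nlinarith

theorem fail : ¬ PropNu ℂ XX := by
  intro hP
  obtain ⟨ε, hε⟩ : ∃ e : ℝ, e = 1 / 100000000 := ⟨_, rfl⟩
  have hε0 : 0 < ε := by rw [hε]; norm_num
  obtain ⟨η, hη, hP⟩ := hP ε hε0
  obtain ⟨n, hn, hn2⟩ := exists_scale hη
  obtain ⟨T, x₀, f₀, co, si, hT, hx₀, hf₀, hre, hval, hTs, hfs, hsi0, hsi, hco, hco1, hx1, hx2⟩ :=
    setup n (hn.trans (by norm_num))
  obtain ⟨S, x₁, f₁, hS, hx₁, hf₁, hfx, hfS, hST, hxx, hff⟩ := hP T x₀ f₀ hT hx₀ hf₀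
    (by have : RCLike.re (f₀ x₀) = (f₀ x₀).re := rfl
        rw [this]; linarith) (by rw [hval, norm_one])
  have hpi : IsPi x₁ f₁ := ⟨hx₁, hf₁, hfx⟩
  have hQ := XX.quad
  have hr0 := rr_pos n
  have hr2 : rr n ^ 2 ≤ 1 / 100000000 * (1 / 100000000) := by nlinarith
  have hco2 : 1 - ε / 4 ≤ co := by rw [hε]; linarith
  -- the eigenvalue
  set lam : ℂ := f₁ (S x₁) with hlam
  have hlam1 : ‖lam‖ = 1 := hfS
  have hlam0 : lam ≠ 0 := by intro h; rw [h, norm_zero] at hlam1; norm_num at hlam1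
  have hSx : ‖S x₁‖ ≤ 1 := by
    calc ‖S x₁‖ ≤ ‖S‖ * ‖x₁‖ := S.le_opNorm _
      _ = 1 := by rw [hS, hx₁, one_mul]
  have heig : lam⁻¹ • S x₁ = x₁ := by
    apply eq_of_pi (by norm_num : (0 : ℝ) < 4 / 5) hQ hpi
    · rw [norm_smul, norm_inv, hlam1, inv_one, one_mul]; exact hSx
    · rw [map_smul, ← hlam, smul_eq_mul, inv_mul_cancel₀ hlam0]
  have hdual : lam⁻¹ • (f₁.comp S) = f₁ := by
    apply eq_of_pi' (by norm_num : (0 : ℝ) < 6 / 5) hQ hpi
    · rw [norm_smul, norm_inv, hlam1, inv_one, one_mul]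
      calc ‖f₁.comp S‖ ≤ ‖f₁‖ * ‖S‖ := f₁.opNorm_comp_le S
        _ = 1 := by rw [hf₁, hS, one_mul]
    · change lam⁻¹ • f₁ (S x₁) = 1
      rw [← hlam, smul_eq_mul, inv_mul_cancel₀ hlam0]
  have hdual' : ∀ y, f₁ (S y) = lam * f₁ y := by
    intro y
    have h := congrArg (fun g : XX →L[ℂ] ℂ => g y) hdual
    change lam⁻¹ • f₁ (S y) = f₁ y at h
    rw [smul_eq_mul] at h
    rw [← h, ← mul_assoc, mul_inv_cancel₀ hlam0, one_mul]
  -- the eigenvalue is close to one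
  have hlamc : ‖lam - 1‖ ≤ 3 * ε := by
    have e : lam - 1 = (f₁ - f₀) (S x₁) + f₀ ((S - T) x₁) + f₀ (T (x₁ - x₀)) := by
      rw [hlam, ← hval, sub_apply, sub_apply, map_sub f₀, map_sub T, map_sub f₀]
      ring
    rw [e]
    have b1 : ‖(f₁ - f₀) (S x₁)‖ ≤ ε * 1 := by
      calc ‖(f₁ - f₀) (S x₁)‖ ≤ ‖f₁ - f₀‖ * ‖S x₁‖ := (f₁ - f₀).le_opNorm _
        _ ≤ ε * 1 := by gcongr
    have b2 : ‖f₀ ((S - T) x₁)‖ ≤ 1 * (ε * 1) := by
      calc ‖f₀ ((S - T) x₁)‖ ≤ ‖f₀‖ * ‖(S - T) x₁‖ := f₀.le_opNorm _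
        _ ≤ ‖f₀‖ * (‖S - T‖ * ‖x₁‖) := by gcongr; exact (S - T).le_opNorm _
        _ ≤ 1 * (ε * 1) := by rw [hf₀, hx₁]; gcongr
    have b3 : ‖f₀ (T (x₁ - x₀))‖ ≤ 1 * (1 * ε) := by
      calc ‖f₀ (T (x₁ - x₀))‖ ≤ ‖f₀‖ * ‖T (x₁ - x₀)‖ := f₀.le_opNorm _
        _ ≤ ‖f₀‖ * (‖T‖ * ‖x₁ - x₀‖) := by gcongr; exact T.le_opNorm _
        _ ≤ 1 * (1 * ε) := by rw [hf₀, hT]; gcongr
    have b4 := norm_add_le ((f₁ - f₀) (S x₁) + f₀ ((S - T) x₁)) (f₀ (T (x₁ - x₀)))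
    have b5 := norm_add_le ((f₁ - f₀) (S x₁)) (f₀ ((S - T) x₁))
    linarith
  -- the tangent direction
  set j : Pl n → XX := lp.single 2 n with hj
  have jn : ∀ v : Pl n, ‖j v‖ = ‖v‖ := fun v => lp.norm_single (by norm_num) n v
  have js : ∀ (a : ℂ) (v : Pl n), j (a • v) = a • j v := fun a v => lp.single_smul 2 n a v
  set e₁ : Pl n := Pl.mk n (1, 0) with he₁
  set e₂ : Pl n := Pl.mk n (0, 1) with he₂
  have he₁n : ‖e₁‖ ≤ 2 := by
    have := Pl.norm_le_sum e₁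
    have h1 : e₁.pt.1 = 1 := rfl
    have h2 : e₁.pt.2 = 0 := rfl
    rw [h1, h2, norm_one, norm_zero] at this
    linarith
  have he₂n : ‖e₂‖ ≤ 2 := by
    have := Pl.norm_le_sum e₂
    have h1 : e₂.pt.1 = 0 := rfl
    have h2 : e₂.pt.2 = 1 := rfl
    rw [h1, h2, norm_one, norm_zero] at this
    linarith
  set b₁ : ℂ := f₁ (j e₁) with hb₁
  set b₂ : ℂ := f₁ (j e₂) with hb₂
  have hb₁n : 1 / 2 ≤ ‖b₁‖ := by
    have h1 : f₀ (j e₁) = (Real.sqrt (1 + rr n ^ 2 / 100) : ℂ) := by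
      rw [hj, hfs]
      have : e₁.pt.1 = 1 := rfl
      rw [this, mul_one]
    have h2 : 1 ≤ ‖f₀ (j e₁)‖ := by
      rw [h1, Complex.norm_real, Real.norm_of_nonneg (Real.sqrt_nonneg _), Real.one_le_sqrt]
      nlinarith [sq_nonneg (rr n)]
    have h3 : ‖(f₁ - f₀) (j e₁)‖ ≤ ε * 2 := by
      calc ‖(f₁ - f₀) (j e₁)‖ ≤ ‖f₁ - f₀‖ * ‖j e₁‖ := (f₁ - f₀).le_opNorm _
        _ ≤ ε * 2 := by rw [jn]; gcongr
    have h4 : ‖f₀ (j e₁)‖ ≤ ‖b₁‖ + ‖(f₁ - f₀) (j e₁)‖ := by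
      have : f₀ (j e₁) = b₁ - (f₁ - f₀) (j e₁) := by rw [hb₁, sub_apply]; ring
      rw [this]
      exact norm_sub_le _ _
    linarith
  have hb₂n : ‖b₂‖ ≤ 2 * ε := by
    have h1 : f₀ (j e₂) = 0 := by
      rw [hj, hfs]
      have : e₂.pt.1 = 0 := rfl
      rw [this, mul_zero]
    have h3 : ‖(f₁ - f₀) (j e₂)‖ ≤ ε * 2 := by
      calc ‖(f₁ - f₀) (j e₂)‖ ≤ ‖f₁ - f₀‖ * ‖j e₂‖ := (f₁ - f₀).le_opNorm _
        _ ≤ ε * 2 := by rw [jn]; gcongr
    have : b₂ = (f₁ - f₀) (j e₂) := by rw [hb₂, sub_apply, h1, sub_zero]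
    rw [this]; linarith
  have hb₁0 : b₁ ≠ 0 := by intro h; rw [h, norm_zero] at hb₁n; norm_num at hb₁n
  set κ : ℂ := -b₂ / b₁ with hκ
  have hκn : ‖κ‖ ≤ 4 * ε := by
    rw [hκ, norm_div, norm_neg, div_le_iff₀ (by linarith)]
    nlinarith
  set h : Pl n := Pl.mk n (κ, 1) with hh
  have hh1 : h.pt.1 = κ := rfl
  have hh2 : h.pt.2 = 1 := rfl
  have hdec : h = κ • e₁ + e₂ := by
    apply Prod.ext
    · change κ = κ * 1 + 0
      ring
    · change (1 : ℂ) = κ * 0 + 1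
      ring
  have hker : f₁ (j h) = 0 := by
    have e : j h = κ • j e₁ + j e₂ := by
      rw [← js, hdec]
      exact lp.single_add 2 n _ _
    rw [e, map_add, map_smul, ← hb₁, ← hb₂, smul_eq_mul, hκ]
    field_simp
    ring
  have hhn : ‖h‖ ≤ 6 / 5 := by
    have := Pl.norm_le_sum h
    rw [hh1, hh2, norm_one] at this
    linarith
  -- the operators on the tangent direction
  have hrot : ‖I • j h - T (j h)‖ ≤ 2 / 10000000 := by
    have e : I • j h - T (j h) = j (I • h - Pl.mk n ((cf (rr n) : ℂ) * ((co : ℂ) * h.pt.1 + si * h.pt.2),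
          (cf (rr n) : ℂ) * (I * (-si * h.pt.1 + co * h.pt.2)))) := by
      rw [← js]
      change _ - T (lp.single 2 n h) = _
      rw [hTs]
      exact (lp.single_sub 2 n _ _).symm
    rw [e, jn]
    refine (Pl.norm_le_sum _).trans ?_
    have c1 := cf_le hr0 (hn.trans (by norm_num))
    have c2 := cf_ge hr0 (hn.trans (by norm_num))
    have c0 := cf_nonneg (rr n)
    set c := cf (rr n)
    have d1 : (I • h - Pl.mk n ((c : ℂ) * ((co : ℂ) * h.pt.1 + si * h.pt.2),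
          (c : ℂ) * (I * (-si * h.pt.1 + co * h.pt.2)))).pt.1 = I * κ - c * (co * κ + si) := by
      change I * κ - (c : ℂ) * ((co : ℂ) * κ + si * 1) = _
      ring
    have d2 : (I • h - Pl.mk n ((c : ℂ) * ((co : ℂ) * h.pt.1 + si * h.pt.2),
          (c : ℂ) * (I * (-si * h.pt.1 + co * h.pt.2)))).pt.2
          = I * (((1 - c * co : ℝ) : ℂ) + ((c * si : ℝ) : ℂ) * κ) := by
      change I * 1 - (c : ℂ) * (I * (-si * κ + co * 1)) = _
      push_cast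
      ring
    rw [d1, d2]
    have hcoa : |co| ≤ 1 := by rw [abs_le]; constructor <;> linarith
    have n1 : ‖I * κ - c * (co * κ + si)‖ ≤ 4 * ε + (4 * ε + 3 * ε) := by
      calc ‖I * κ - c * (co * κ + si)‖ ≤ ‖I * κ‖ + ‖(c : ℂ) * (co * κ + si)‖ := norm_sub_le _ _
        _ = ‖κ‖ + c * ‖(co : ℂ) * κ + si‖ := by
            rw [norm_mul, Complex.norm_I, one_mul, norm_mul, Complex.norm_real,
              Real.norm_of_nonneg c0]
        _ ≤ ‖κ‖ + 1 * (‖(co : ℂ) * κ‖ + ‖(si : ℂ)‖) := by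
            gcongr
            exact norm_add_le _ _
        _ = ‖κ‖ + (|co| * ‖κ‖ + si) := by
            rw [norm_mul, Complex.norm_real, Complex.norm_real, Real.norm_of_nonneg hsi0,
              Real.norm_eq_abs, one_mul]
        _ ≤ 4 * ε + (1 * (4 * ε) + 3 * ε) := by
            have : si ≤ 3 * ε := by linarith
            gcongr
        _ = _ := by ring
    have n2 : ‖I * (((1 - c * co : ℝ) : ℂ) + ((c * si : ℝ) : ℂ) * κ)‖ ≤ ε + 1 * (4 * ε) := by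
      rw [norm_mul, Complex.norm_I, one_mul]
      refine (norm_add_le _ _).trans ?_
      rw [norm_mul, Complex.norm_real, Complex.norm_real, Real.norm_eq_abs, Real.norm_eq_abs]
      have c3 : 1 - ε / 4 ≤ c := by rw [hε]; linarith
      have m1 : |1 - c * co| ≤ ε := by
        have hco0 : 0 ≤ co := by rw [hε] at hco2; linarith
        rw [abs_le]
        constructor
        · nlinarith
        · have : (1 - ε / 4) * (1 - ε / 4) ≤ c * co := by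
            have : 0 ≤ 1 - ε / 4 := by rw [hε]; norm_num
            gcongr
          nlinarith
      have m2 : |c * si| ≤ 1 := by
        rw [abs_of_nonneg (by positivity)]
        have : si ≤ 1 := by linarith
        nlinarith
      gcongr
    calc 11 / 10 * (‖I * κ - c * (co * κ + si)‖ + ‖I * (((1 - c * co : ℝ) : ℂ) + ((c * si : ℝ) : ℂ) * κ)‖)
        ≤ 11 / 10 * ((4 * ε + (4 * ε + 3 * ε)) + (ε + 1 * (4 * ε))) := by gcongr
      _ ≤ 2 / 10000000 := by rw [hε]; norm_num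
  have hlaminv : ‖1 - lam⁻¹‖ ≤ 3 * ε := by
    have : 1 - lam⁻¹ = lam⁻¹ * (lam - 1) := by field_simp
    rw [this, norm_mul, norm_inv, hlam1, inv_one, one_mul]
    exact hlamc
  have hSh : ‖S (j h)‖ ≤ 6 / 5 := by
    calc ‖S (j h)‖ ≤ ‖S‖ * ‖j h‖ := S.le_opNorm _
      _ ≤ 6 / 5 := by rw [hS, jn, one_mul]; exact hhn
  have hE : ‖I • j h - lam⁻¹ • S (j h)‖ ≤ 3 / 10000000 := by
    have e : I • j h - lam⁻¹ • S (j h) = (I • j h - T (j h)) - (S - T) (j h)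
        + (1 - lam⁻¹) • S (j h) := by
      rw [sub_apply, sub_smul, one_smul]
      abel
    rw [e]
    have m1 : ‖(S - T) (j h)‖ ≤ ε * (6 / 5) := by
      calc ‖(S - T) (j h)‖ ≤ ‖S - T‖ * ‖j h‖ := (S - T).le_opNorm _
        _ ≤ ε * (6 / 5) := by rw [jn]; gcongr
    have m2 : ‖(1 - lam⁻¹) • S (j h)‖ ≤ 3 * ε * (6 / 5) := by
      rw [norm_smul]; gcongr
    have m3 := norm_add_le ((I • j h - T (j h)) - (S - T) (j h)) ((1 - lam⁻¹) • S (j h))
    have m4 := norm_sub_le (I • j h - T (j h)) ((S - T) (j h))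
    rw [hε] at m1 m2
    linarith
  -- the inequality for the plane
  refine loc (r := rr n) (u := (x₁ n).pt) (κ := κ) (δ' := 1 / 100000) hr0
    (hn.trans (by norm_num)) ?_ ?_ ?_ (by norm_num) le_rfl ?_
  · have h1 : ‖(x₁ n).pt.1 - (x₀ n).pt.1‖ ≤ 11 / 10 * ‖x₁ - x₀‖ := by
      have := (Pl.coord_le (x₁ n - x₀ n)).1
      have e : (x₁ n - x₀ n).pt.1 = (x₁ n).pt.1 - (x₀ n).pt.1 := rfl
      rw [e] at this
      refine this.trans ?_
      have h5 : ‖x₁ n - x₀ n‖ ≤ ‖x₁ - x₀‖ := lp.norm_apply_le_norm (by norm_num) (x₁ - x₀) n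
      gcongr
    have h2 : ‖(x₁ n).pt.1 - 1‖ ≤ ‖(x₁ n).pt.1 - (x₀ n).pt.1‖ + ‖(x₀ n).pt.1 - 1‖ :=
      norm_sub_le_norm_sub_add_norm_sub _ _ _
    rw [hε] at hxx
    linarith
  · have h1 : ‖(x₁ n).pt.2 - (x₀ n).pt.2‖ ≤ 11 / 10 * ‖x₁ - x₀‖ := by
      have := (Pl.coord_le (x₁ n - x₀ n)).2
      have e : (x₁ n - x₀ n).pt.2 = (x₁ n).pt.2 - (x₀ n).pt.2 := rfl
      rw [e] at this
      refine this.trans ?_
      have h5 : ‖x₁ n - x₀ n‖ ≤ ‖x₁ - x₀‖ := lp.norm_apply_le_norm (by norm_num) (x₁ - x₀) n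
      gcongr
    have h2 : ‖(x₁ n).pt.2‖ ≤ ‖(x₁ n).pt.2 - (x₀ n).pt.2‖ + ‖(x₀ n).pt.2‖ := by
      have := norm_add_le ((x₁ n).pt.2 - (x₀ n).pt.2) (x₀ n).pt.2
      rwa [sub_add_cancel] at this
    rw [hε] at hxx
    linarith
  · rw [hε] at hκn
    linarith
  · intro t
    set k : XX := j ((I * t) • h) with hk
    set k' : XX := lam⁻¹ • S (j (t • h)) with hk'
    have k1 : f₁ k = 0 := by rw [hk, js, map_smul, hker, smul_zero]
    have k2 : f₁ k' = 0 := by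
      rw [hk', map_smul, hdual', js, map_smul, hker, smul_zero, mul_zero, smul_zero]
    have k3 := ker_move (by norm_num : (0 : ℝ) < 6 / 5) hQ hpi k1 k2
    have k4 : ‖k'‖ ≤ ‖t‖ * (6 / 5) := by
      rw [hk', js, map_smul, norm_smul, norm_inv, hlam1, inv_one, one_mul, norm_smul]
      gcongr
    have k5 : ‖k - k'‖ ≤ ‖t‖ * (3 / 10000000) := by
      have e : k - k' = t • (I • j h - lam⁻¹ • S (j h)) := by
        rw [hk, hk', js, js, map_smul, smul_sub, smul_smul, smul_smul, smul_smul, mul_comm t I,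
          mul_comm t lam⁻¹]
      rw [e, norm_smul]
      gcongr
    have k6 : ‖x₁ + k'‖ ^ 2 ≤ ‖x₁ + j (t • h)‖ ^ 2 := by
      have e : x₁ + k' = lam⁻¹ • S (x₁ + j (t • h)) := by
        rw [map_add, smul_add, heig]
      have : ‖x₁ + k'‖ ≤ ‖x₁ + j (t • h)‖ := by
        rw [e, norm_smul, norm_inv, hlam1, inv_one, one_mul]
        calc ‖S (x₁ + j (t • h))‖ ≤ ‖S‖ * ‖x₁ + j (t • h)‖ := S.le_opNorm _
          _ = _ := by rw [hS, one_mul]
      exact pow_le_pow_left₀ (norm_nonneg _) this 2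
    have k7 : 8 * (6 / 5) * (‖k'‖ + ‖k - k'‖) * ‖k - k'‖ ≤ 1 / 100000 * ‖t‖ ^ 2 := by
      calc 8 * (6 / 5) * (‖k'‖ + ‖k - k'‖) * ‖k - k'‖
          ≤ 8 * (6 / 5) * (‖t‖ * (6 / 5) + ‖t‖ * (3 / 10000000)) * (‖t‖ * (3 / 10000000)) := by
            gcongr
        _ ≤ _ := by nlinarith [sq_nonneg ‖t‖]
    have k8 : ‖x₁ + j ((I * t) • h)‖ ^ 2 ≤ ‖x₁ + j (t • h)‖ ^ 2 + 1 / 100000 * ‖t‖ ^ 2 := by
      linarith
    have k9 := single_add_sq x₁ n ((I * t) • h) (t • h)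
    have k10 : ‖x₁ n + (I * t) • h‖ ^ 2 ≤ ‖x₁ n + t • h‖ ^ 2 + 1 / 100000 * ‖t‖ ^ 2 := by
      have : ‖x₁ + j ((I * t) • h)‖ ^ 2 - ‖x₁ + j (t • h)‖ ^ 2
        = ‖x₁ n + (I * t) • h‖ ^ 2 - ‖x₁ n + t • h‖ ^ 2 := k9
      linarith
    rw [Pl.norm_sq, Pl.norm_sq] at k10
    have e1 : (x₁ n + (I * t) • h).pt = ((x₁ n).pt.1 + I * t * κ, (x₁ n).pt.2 + I * t) := by
      apply Prod.ext
      · rfl
      · change (x₁ n).pt.2 + I * t * 1 = _
        rw [mul_one]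
    have e2 : (x₁ n + t • h).pt = ((x₁ n).pt.1 + t * κ, (x₁ n).pt.2 + t) := by
      apply Prod.ext
      · rfl
      · change (x₁ n).pt.2 + t * 1 = _
        rw [mul_one]
    rw [e1, e2] at k10
    exact k10

end Q96.NU
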