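import Pool.Agent.Q96.NU.Stm

/-!
# Basic facts about the function `fr`
-/

namespace Q96.NU

/-- the Euclidean square -/
noncomputable def sq2 (z : ℂ × ℂ) : ℝ := ‖z.1‖ ^ 2 + ‖z.2‖ ^ 2

/-- the quadratic form of the perturbation -/
noncomputable def qq (z : ℂ × ℂ) : ℝ := 2 * ((starRingEnd ℂ) z.1 * z.2).re

theorem fr_eq (r : ℝ) (z : ℂ × ℂ) :
    fr r z = sq2 z * (1 + r ^ 2 / 100 * Real.cos (qq z / (r * sq2 z))) := rfl

theorem sq2_nonneg (z : ℂ × ℂ) : 0 ≤ sq2 z := by unfold sq2; positivity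

theorem sq2_pos {z : ℂ × ℂ} (hz : z ≠ 0) : 0 < sq2 z := by
  rcases (sq2_nonneg z).lt_or_eq with h | h
  · exact h
  exfalso
  apply hz
  unfold sq2 at h
  have h1 : ‖z.1‖ ^ 2 = 0 := by nlinarith [sq_nonneg ‖z.1‖, sq_nonneg ‖z.2‖]
  have h2 : ‖z.2‖ ^ 2 = 0 := by nlinarith [sq_nonneg ‖z.1‖, sq_nonneg ‖z.2‖]
  ext
  · simpa using h1
  · simpa using h2

theorem sq2_smul (a : ℂ) (z : ℂ × ℂ) : sq2 (a • z) = ‖a‖ ^ 2 * sq2 z := by
  unfold sq2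
  simp only [Prod.smul_fst, Prod.smul_snd, smul_eq_mul, norm_mul]
  ring

theorem qq_smul (a : ℂ) (z : ℂ × ℂ) : qq (a • z) = ‖a‖ ^ 2 * qq z := by
  unfold qq
  have : (starRingEnd ℂ) (a • z).1 * (a • z).2 = ((‖a‖ ^ 2 : ℝ) : ℂ) * ((starRingEnd ℂ) z.1 * z.2) := by
    simp only [Prod.smul_fst, Prod.smul_snd, smul_eq_mul, map_mul]
    have h : (starRingEnd ℂ) a * a = ((‖a‖ ^ 2 : ℝ) : ℂ) := by
      rw [mul_comm, Complex.mul_conj, Complex.normSq_eq_norm_sq]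
    calc (starRingEnd ℂ) a * (starRingEnd ℂ) z.1 * (a * z.2)
        = ((starRingEnd ℂ) a * a) * ((starRingEnd ℂ) z.1 * z.2) := by ring
      _ = _ := by rw [h]
  rw [this, Complex.re_ofReal_mul]
  ring

theorem fr_smul (r : ℝ) (a : ℂ) (z : ℂ × ℂ) : fr r (a • z) = ‖a‖ ^ 2 * fr r z := by
  rw [fr_eq, fr_eq, sq2_smul, qq_smul]
  by_cases ha : a = 0
  · simp [ha]
  have h : ‖a‖ ^ 2 * qq z / (r * (‖a‖ ^ 2 * sq2 z)) = qq z / (r * sq2 z) := by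
    have : ‖a‖ ^ 2 ≠ 0 := by simp [ha]
    rw [show r * (‖a‖ ^ 2 * sq2 z) = ‖a‖ ^ 2 * (r * sq2 z) by ring, mul_div_mul_left _ _ this]
  rw [h]
  ring

theorem fr_zero (r : ℝ) : fr r 0 = 0 := by
  rw [fr_eq]; simp [sq2]

theorem fr_lower (r : ℝ) (z : ℂ × ℂ) :
    (1 - r ^ 2 / 100) * sq2 z ≤ fr r z := by
  rw [fr_eq]
  have h1 := Real.neg_one_le_cos (qq z / (r * sq2 z))
  have h2 := sq2_nonneg z
  nlinarith [mul_nonneg h2 (by positivity : 0 ≤ r ^ 2 / 100)]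

theorem fr_upper (r : ℝ) (z : ℂ × ℂ) :
    fr r z ≤ (1 + r ^ 2 / 100) * sq2 z := by
  rw [fr_eq]
  have h1 := Real.cos_le_one (qq z / (r * sq2 z))
  have h2 := sq2_nonneg z
  nlinarith [mul_nonneg h2 (by positivity : 0 ≤ r ^ 2 / 100)]

theorem fr_ge {r : ℝ} (hr : 0 < r) (hr1 : r ≤ 1) (z : ℂ × ℂ) : 99 / 100 * sq2 z ≤ fr r z := by
  refine le_trans ?_ (fr_lower r z)
  have h2 := sq2_nonneg z
  have : r ^ 2 ≤ 1 := by nlinarith
  nlinarith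

theorem fr_le {r : ℝ} (hr : 0 < r) (hr1 : r ≤ 1) (z : ℂ × ℂ) : fr r z ≤ 101 / 100 * sq2 z := by
  refine le_trans (fr_upper r z) ?_
  have h2 := sq2_nonneg z
  have : r ^ 2 ≤ 1 := by nlinarith
  nlinarith

theorem fr_nonneg {r : ℝ} (hr : 0 < r) (hr1 : r ≤ 1) (z : ℂ × ℂ) : 0 ≤ fr r z :=
  le_trans (mul_nonneg (by norm_num) (sq2_nonneg z)) (fr_ge hr hr1 z)

theorem fr_eq_zero {r : ℝ} (hr : 0 < r) (hr1 : r ≤ 1) {z : ℂ × ℂ} (h : fr r z = 0) : z = 0 := by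
  by_contra hz
  have h1 := sq2_pos hz
  have h2 := fr_ge hr hr1 z
  linarith

/-- the triangle inequality from convexity -/
theorem sqrt_fr_add {r : ℝ} (hr : 0 < r) (hr1 : r ≤ 1) (hcv : ConvexOn ℝ Set.univ (fr r))
    (x y : ℂ × ℂ) : Real.sqrt (fr r (x + y)) ≤ Real.sqrt (fr r x) + Real.sqrt (fr r y) := by
  by_cases hx : x = 0
  · simp [hx, fr_zero]
  by_cases hy : y = 0
  · simp [hy, fr_zero]
  set s := Real.sqrt (fr r x) with hs
  set t := Real.sqrt (fr r y) with ht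
  have hfx : 0 < fr r x := lt_of_le_of_ne (fr_nonneg hr hr1 x) (fun h => hx (fr_eq_zero hr hr1 h.symm))
  have hfy : 0 < fr r y := lt_of_le_of_ne (fr_nonneg hr hr1 y) (fun h => hy (fr_eq_zero hr hr1 h.symm))
  have hs0 : 0 < s := Real.sqrt_pos.mpr hfx
  have ht0 : 0 < t := Real.sqrt_pos.mpr hfy
  have hs2 : s ^ 2 = fr r x := Real.sq_sqrt hfx.le
  have ht2 : t ^ 2 = fr r y := Real.sq_sqrt hfy.le
  have hst : 0 < s + t := by positivity
  have h1 := hcv.2 (Set.mem_univ (((1 / s : ℝ) : ℂ) • x)) (Set.mem_univ (((1 / t : ℝ) : ℂ) • y))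
    (by positivity : 0 ≤ s / (s + t)) (by positivity : 0 ≤ t / (s + t))
    (by rw [← add_div, div_self hst.ne'])
  have e1 : (s / (s + t)) • (((1 / s : ℝ) : ℂ) • x) + (t / (s + t)) • (((1 / t : ℝ) : ℂ) • y)
      = ((1 / (s + t) : ℝ) : ℂ) • (x + y) := by
    have hsc : (s : ℂ) ≠ 0 := by exact_mod_cast hs0.ne'
    have htc : (t : ℂ) ≠ 0 := by exact_mod_cast ht0.ne'
    have hstc : (s : ℂ) + t ≠ 0 := by exact_mod_cast hst.ne'
    ext
    · simp only [Prod.fst_add, Prod.smul_fst, smul_eq_mul, Complex.real_smul]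
      push_cast
      field_simp
    · simp only [Prod.snd_add, Prod.smul_snd, smul_eq_mul, Complex.real_smul]
      push_cast
      field_simp
  rw [e1, fr_smul, fr_smul, fr_smul] at h1
  simp only [Complex.norm_real, smul_eq_mul] at h1
  rw [Real.norm_of_nonneg (by positivity : 0 ≤ 1 / s), Real.norm_of_nonneg (by positivity : 0 ≤ 1 / t),
    Real.norm_of_nonneg (by positivity : 0 ≤ 1 / (s + t)), ← hs2, ← ht2] at h1
  have h2 : s / (s + t) * ((1 / s) ^ 2 * s ^ 2) + t / (s + t) * ((1 / t) ^ 2 * t ^ 2) = 1 := by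
    field_simp
  rw [h2] at h1
  have h3 : fr r (x + y) ≤ (s + t) ^ 2 := by
    have h4 : (1 / (s + t)) ^ 2 * fr r (x + y) = fr r (x + y) / (s + t) ^ 2 := by
      rw [div_pow, one_pow]; ring
    rw [h4, div_le_one (by positivity)] at h1
    exact h1
  rw [← Real.sqrt_sq hst.le]
  exact Real.sqrt_le_sqrt h3

end Q96.NU
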