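import Pool.Agent.Q96.NU.Fail
import Pool.Agent.Q176.NU.A
import Pool.Agent.Q275.NU.B

/-!
# The sum space has the Bishop–Phelps–Bollobás property for numerical radius
-/

namespace Q96.NU

theorem nu_smul_pi {X : Type} [NormedAddCommGroup X] [NormedSpace ℂ X] (S : X →L[ℂ] X) {x : X}
    {f : X →L[ℂ] ℂ} (hx : IsPi x f) (h : ‖f (S x)‖ = nu S) (hS : 0 < nu S) :
    nu (((1 / nu S : ℝ) : ℂ) • S) = 1 ∧ ‖f ((((1 / nu S : ℝ) : ℂ) • S) x)‖ = 1 := by
  have hp : 0 < 1 / nu S := by positivity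
  have e : ∀ (y : X) (g : X →L[ℂ] ℂ), ‖g ((((1 / nu S : ℝ) : ℂ) • S) y)‖ = 1 / nu S * ‖g (S y)‖ := by
    intro y g
    change ‖g (((1 / nu S : ℝ) : ℂ) • S y)‖ = _
    rw [map_smul, norm_smul, Complex.norm_real, Real.norm_of_nonneg hp.le]
  have h1 : ‖f ((((1 / nu S : ℝ) : ℂ) • S) x)‖ = 1 := by
    rw [e, h]; field_simp
  refine ⟨le_antisymm ?_ ?_, h1⟩
  · refine csSup_le ⟨_, x, f, hx, rfl⟩ ?_
    rintro r ⟨y, g, hyg, rfl⟩
    rw [e]
    calc 1 / nu S * ‖g (S y)‖ ≤ 1 / nu S * nu S := by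
          gcongr
          exact Pool.Agent.Q275.NU.le_nu S hyg
      _ = 1 := by field_simp
  · exact h1.symm.le.trans (Pool.Agent.Q275.NU.le_nu _ hx)

/-- complex Banach spaces with the two-sided quadratic estimate have the property -/
theorem bpb_of_quad (X : Type) [NormedAddCommGroup X] [NormedSpace ℂ X] [CompleteSpace X]
    {c C : ℝ} (hc : 0 < c) (hC : 0 < C) (hQ : Quad X c C) : BPBpNu ℂ X := by
  intro ε hε
  set e : ℝ := min (ε / 10) (1 / 2) with he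
  have he0 : 0 < e := by rw [he]; positivity
  have he1 : e ≤ ε / 10 := min_le_left _ _
  have he2 : e ≤ 1 / 2 := min_le_right _ _
  obtain ⟨η, hη, H⟩ := Pool.Agent.Q275.NU.stmB X c C hc hC hQ e he0
  refine ⟨η, hη, ?_⟩
  intro T x₀ f₀ hT hpi h0
  obtain ⟨S, x₁, f₁, hpi1, hval, hST, hxx, hff⟩ := H T x₀ f₀ hpi (by rw [hT]; exact h0)
  have l1 := Pool.Agent.Q275.NU.nu_le_add S T hpi
  have l2 := Pool.Agent.Q275.NU.nu_le_add T S hpi
  rw [norm_sub_rev] at l2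
  rw [hT] at l1 l2
  have hS0 : 0 < nu S := by linarith
  obtain ⟨k1, k2⟩ := nu_smul_pi S hpi1 hval hS0
  refine ⟨((1 / nu S : ℝ) : ℂ) • S, x₁, f₁, hpi1, k1, k2, ?_, by linarith, by linarith⟩
  have hA := Q176.NU.stmA X S
  have e1 : ((1 / nu S : ℝ) : ℂ) • S - T = ((1 / nu S - 1 : ℝ) : ℂ) • S + (S - T) := by
    push_cast
    rw [sub_smul, one_smul]
    abel
  have e2 : ‖((1 / nu S - 1 : ℝ) : ℂ) • S‖ ≤ 8 * e := by
    rw [norm_smul, Complex.norm_real, Real.norm_eq_abs]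
    have e3 : |1 / nu S - 1| = |1 - nu S| / nu S := by
      rw [show 1 / nu S - 1 = (1 - nu S) / nu S by field_simp, abs_div, abs_of_pos hS0]
    rw [e3, div_mul_eq_mul_div, div_le_iff₀ hS0]
    have e4 : |1 - nu S| ≤ e := by
      rw [abs_le]; constructor <;> linarith
    calc |1 - nu S| * ‖S‖ ≤ e * (8 * nu S) := by gcongr
      _ = 8 * e * nu S := by ring
  rw [e1]
  calc ‖((1 / nu S - 1 : ℝ) : ℂ) • S + (S - T)‖ ≤ ‖((1 / nu S - 1 : ℝ) : ℂ) • S‖ + ‖S - T‖ :=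
        norm_add_le _ _
    _ < ε := by linarith

theorem main : BPBpNu ℂ XX ∧ ¬ PropNu ℂ XX :=
  ⟨bpb_of_quad XX (by norm_num) (by norm_num) XX.quad, fail⟩

end Q96.NU
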