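import Pool.Agent.Q96.NU.FrB

/-!
# The scaled rotation and the numbers of the construction
-/

namespace Q96.NU

open Complex

theorem exists_angle {r : ℝ} (hr : 0 < r) (hr1 : r ≤ 1 / 100000) :
    ∃ co si : ℝ, co ^ 2 + si ^ 2 = 1 ∧ 2 * co * si = Real.pi * r ∧ 0 ≤ si ∧ si ≤ 3 * r ∧
      1 - 9 * r ^ 2 ≤ co ∧ co ≤ 1 := by
  have hpi := Real.pi_pos
  have hpi4 := Real.pi_lt_four
  set y : ℝ := Real.pi * r with hy
  have hy0 : 0 ≤ y := by positivity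
  have hy1 : y ≤ 1 := by nlinarith
  set θ : ℝ := Real.arcsin y / 2 with hθ
  have h1 : Real.sin (2 * θ) = y := by
    rw [hθ, mul_div_cancel₀ _ (two_ne_zero)]
    exact Real.sin_arcsin (by linarith) hy1
  have h2 : 0 ≤ Real.arcsin y := Real.arcsin_nonneg.mpr hy0
  have h3 : Real.arcsin y ≤ Real.pi / 2 := Real.arcsin_le_pi_div_two y
  have h4 : 0 ≤ Real.sin θ := Real.sin_nonneg_of_nonneg_of_le_pi (by positivity) (by
    rw [hθ]; linarith)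
  have h5 : 0 ≤ Real.cos θ := Real.cos_nonneg_of_neg_pi_div_two_le_of_le (by rw [hθ]; linarith)
    (by rw [hθ]; linarith)
  have h6 : 0 ≤ Real.cos (2 * θ) := Real.cos_nonneg_of_neg_pi_div_two_le_of_le
    (by rw [hθ]; linarith) (by rw [hθ]; linarith)
  have h7 := Real.sin_sq_add_cos_sq θ
  rw [Real.cos_two_mul] at h6
  rw [Real.sin_two_mul] at h1
  set co := Real.cos θ
  set si := Real.sin θ
  have h8 : 7 / 10 ≤ co := by
    by_contra hcon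
    push Not at hcon
    nlinarith
  have h9 : si ≤ 3 * r := by
    by_contra hcon
    push Not at hcon
    have : Real.pi * r < 4 * r := by nlinarith
    have h10 : 2 * si * co ≥ 2 * si * (7 / 10) := by nlinarith
    nlinarith
  refine ⟨co, si, by linarith, by rw [← h1]; ring, h4, h9, ?_, Real.cos_le_one θ⟩
  have h11 : si ^ 2 ≤ 9 * r ^ 2 := by nlinarith
  have h12 : co ≤ 1 := Real.cos_le_one θ
  nlinarith

theorem sq2_rot {co si : ℝ} (h : co ^ 2 + si ^ 2 = 1) (z : ℂ × ℂ) :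
    sq2 ((co : ℂ) * z.1 + si * z.2, I * (-si * z.1 + co * z.2)) = sq2 z := by
  unfold sq2
  simp only [Complex.sq_norm, Complex.normSq_apply, Complex.add_re, Complex.add_im,
    Complex.mul_re, Complex.mul_im, Complex.neg_re, Complex.neg_im, Complex.ofReal_re,
    Complex.ofReal_im, Complex.I_re, Complex.I_im]
  linear_combination (z.1.re ^ 2 + z.1.im ^ 2 + z.2.re ^ 2 + z.2.im ^ 2) * h

/-- the scaling factor -/
noncomputable def cf (r : ℝ) : ℝ := Real.sqrt ((1 - r ^ 2 / 100) / (1 + r ^ 2 / 100))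

theorem cf_sq {r : ℝ} (hr : 0 < r) (hr1 : r ≤ 1 / 100000) :
    cf r ^ 2 = (1 - r ^ 2 / 100) / (1 + r ^ 2 / 100) := by
  unfold cf
  rw [Real.sq_sqrt]
  have : 0 ≤ 1 - r ^ 2 / 100 := by nlinarith
  positivity

theorem cf_nonneg (r : ℝ) : 0 ≤ cf r := Real.sqrt_nonneg _

theorem cf_le {r : ℝ} (hr : 0 < r) (hr1 : r ≤ 1 / 100000) : cf r ≤ 1 := by
  have h := cf_sq hr hr1
  have : (1 - r ^ 2 / 100) / (1 + r ^ 2 / 100) ≤ 1 := by
    rw [div_le_one (by positivity)]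
    nlinarith [sq_nonneg r]
  nlinarith [cf_nonneg r]

theorem cf_ge {r : ℝ} (hr : 0 < r) (hr1 : r ≤ 1 / 100000) : 1 - r ^ 2 ≤ cf r := by
  have h := cf_sq hr hr1
  have h0 : 0 ≤ 1 - r ^ 2 := by nlinarith
  have h2 : (1 - r ^ 2) ^ 2 ≤ (1 - r ^ 2 / 100) / (1 + r ^ 2 / 100) := by
    rw [le_div_iff₀ (by positivity)]
    have : r ^ 2 ≤ 1 := by nlinarith
    nlinarith [sq_nonneg r, sq_nonneg (r ^ 2)]
  rw [← h] at h2
  exact le_of_sq_le_sq h2 (cf_nonneg r)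

/-- the rotation is a contraction -/
theorem fr_rot {r : ℝ} (hr : 0 < r) (hr1 : r ≤ 1 / 100000) {co si : ℝ} (h : co ^ 2 + si ^ 2 = 1)
    (z : ℂ × ℂ) :
    fr r ((cf r : ℂ) * ((co : ℂ) * z.1 + si * z.2), (cf r : ℂ) * (I * (-si * z.1 + co * z.2)))
      ≤ fr r z := by
  have e : ((cf r : ℂ) * ((co : ℂ) * z.1 + si * z.2), (cf r : ℂ) * (I * (-si * z.1 + co * z.2)))
      = (cf r : ℂ) • ((co : ℂ) * z.1 + si * z.2, I * (-si * z.1 + co * z.2)) := rfl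
  rw [e, fr_smul, Complex.norm_real, Real.norm_of_nonneg (cf_nonneg r), cf_sq hr hr1]
  have h1 := fr_upper r ((co : ℂ) * z.1 + si * z.2, I * (-si * z.1 + co * z.2))
  rw [sq2_rot h] at h1
  have h2 := fr_lower r z
  have h3 : 0 < 1 + r ^ 2 / 100 := by positivity
  have h4 : 0 ≤ 1 - r ^ 2 / 100 := by nlinarith
  refine le_trans ?_ h2
  rw [div_mul_eq_mul_div, div_le_iff₀ h3]
  calc (1 - r ^ 2 / 100) * fr r ((co : ℂ) * z.1 + si * z.2, I * (-si * z.1 + co * z.2))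
      ≤ (1 - r ^ 2 / 100) * ((1 + r ^ 2 / 100) * sq2 z) := by gcongr
    _ = _ := by ring

/-- the norming functional of the maximum -/
theorem fr_phi {r : ℝ} (hr : 0 < r) (z : ℂ × ℂ) : (1 + r ^ 2 / 100) * ‖z.1‖ ^ 2 ≤ fr r z := by
  by_cases hz : z = 0
  · rw [hz, fr_zero]; simp
  have hs := sq2_pos hz
  rw [fr_eq]
  set A : ℝ := qq z / (r * sq2 z) with hA
  have h1 : 1 - A ^ 2 / 2 ≤ Real.cos A := Real.one_sub_sq_div_two_le_cos
  have h2 : |qq z| ≤ 2 * (‖z.1‖ * ‖z.2‖) := by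
    unfold qq
    rw [abs_mul, abs_two]
    have : |((starRingEnd ℂ) z.1 * z.2).re| ≤ ‖z.1‖ * ‖z.2‖ := by
      calc |((starRingEnd ℂ) z.1 * z.2).re| ≤ ‖(starRingEnd ℂ) z.1 * z.2‖ := Complex.abs_re_le_norm _
        _ = ‖z.1‖ * ‖z.2‖ := by rw [norm_mul, RCLike.norm_conj]
    linarith
  have h3 : qq z ^ 2 ≤ 4 * ‖z.1‖ ^ 2 * ‖z.2‖ ^ 2 := by
    have : qq z ^ 2 = |qq z| ^ 2 := (sq_abs _).symm
    rw [this]
    calc |qq z| ^ 2 ≤ (2 * (‖z.1‖ * ‖z.2‖)) ^ 2 := by gcongr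
      _ = _ := by ring
  have h4 : r ^ 2 * A ^ 2 * sq2 z ^ 2 = qq z ^ 2 := by
    rw [hA]; field_simp
  have h5 : ‖z.1‖ ^ 2 ≤ sq2 z := by unfold sq2; nlinarith [sq_nonneg ‖z.2‖]
  have h6 : r ^ 2 * A ^ 2 * sq2 z ≤ 4 * ‖z.2‖ ^ 2 := by
    have h7 : r ^ 2 * A ^ 2 * sq2 z * sq2 z ≤ 4 * ‖z.2‖ ^ 2 * sq2 z := by
      calc r ^ 2 * A ^ 2 * sq2 z * sq2 z = qq z ^ 2 := by rw [← h4]; ring
        _ ≤ 4 * ‖z.1‖ ^ 2 * ‖z.2‖ ^ 2 := h3
        _ ≤ 4 * sq2 z * ‖z.2‖ ^ 2 := by gcongr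
        _ = _ := by ring
    exact le_of_mul_le_mul_right h7 hs
  have h8 : sq2 z = ‖z.1‖ ^ 2 + ‖z.2‖ ^ 2 := rfl
  have h9 : r ^ 2 / 100 * (1 - A ^ 2 / 2) * sq2 z ≤ r ^ 2 / 100 * Real.cos A * sq2 z := by
    gcongr
  have h10 : sq2 z * (1 + r ^ 2 / 100 * Real.cos A) = sq2 z + r ^ 2 / 100 * Real.cos A * sq2 z := by
    ring
  rw [h10]
  have h11 : r ^ 2 / 100 * (1 - A ^ 2 / 2) * sq2 z = r ^ 2 / 100 * sq2 z - r ^ 2 * A ^ 2 * sq2 z / 200 := by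
    ring
  have h12 : 0 ≤ r ^ 2 * ‖z.2‖ ^ 2 := by positivity
  rw [h11] at h9
  nlinarith [sq_nonneg ‖z.2‖]

/-- the value at the minimum -/
theorem fr_min {r : ℝ} (hr : 0 < r) {co si : ℝ} (h : co ^ 2 + si ^ 2 = 1)
    (h2 : 2 * co * si = Real.pi * r) : fr r ((co : ℂ), (si : ℂ)) = 1 - r ^ 2 / 100 := by
  rw [fr_eq]
  have e1 : sq2 ((co : ℂ), (si : ℂ)) = 1 := by
    unfold sq2
    simp only [Complex.norm_real, Real.norm_eq_abs, sq_abs]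
    exact h
  have e2 : qq ((co : ℂ), (si : ℂ)) = Real.pi * r := by
    unfold qq
    simp only [Complex.conj_ofReal, ← Complex.ofReal_mul, Complex.ofReal_re]
    linarith
  rw [e1, e2]
  have e3 : Real.pi * r / (r * 1) = Real.pi := by field_simp
  rw [e3, Real.cos_pi]
  ring

end Q96.NU
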