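import Pool.Agent.Q96.NU.Plane
import Pool.Agent.Q96.NU.Rot

/-!
# The operators and the functionals of the construction
-/

namespace Q96.NU

open Complex

theorem Pl.norm_le_of_fr {n : ℕ} {z : Pl n} {C : ℝ} (hC : 0 ≤ C) (h : fr (rr n) z.pt ≤ C ^ 2) :
    ‖z‖ ≤ C := by
  rw [Pl.norm_def]
  calc Real.sqrt (fr (rr n) z.pt) ≤ Real.sqrt (C ^ 2) := Real.sqrt_le_sqrt h
    _ = C := Real.sqrt_sq hC

/-- the norm is at most `1.1` times the sum of the moduli of the coordinates -/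
theorem Pl.norm_le_sum {n : ℕ} (z : Pl n) : ‖z‖ ≤ 11 / 10 * (‖z.pt.1‖ + ‖z.pt.2‖) := by
  apply Pl.norm_le_of_fr (by positivity)
  have h := fr_le (rr_pos n) (rr_le n) z.pt
  have h2 : sq2 z.pt ≤ (‖z.pt.1‖ + ‖z.pt.2‖) ^ 2 := by
    unfold sq2
    nlinarith [norm_nonneg z.pt.1, norm_nonneg z.pt.2]
  nlinarith [sq2_nonneg z.pt]

/-- the coordinates are at most `1.1` times the norm -/
theorem Pl.coord_le {n : ℕ} (z : Pl n) : ‖z.pt.1‖ ≤ 11 / 10 * ‖z‖ ∧ ‖z.pt.2‖ ≤ 11 / 10 * ‖z‖ := by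
  have h := fr_ge (rr_pos n) (rr_le n) z.pt
  rw [← Pl.norm_sq] at h
  unfold sq2 at h
  constructor
  · apply le_of_sq_le_sq _ (by positivity)
    nlinarith [sq_nonneg ‖z.pt.2‖, sq_nonneg ‖z.pt.1‖, sq_nonneg ‖z‖]
  · apply le_of_sq_le_sq _ (by positivity)
    nlinarith [sq_nonneg ‖z.pt.2‖, sq_nonneg ‖z.pt.1‖, sq_nonneg ‖z‖]

/-- the rotation, linear map -/
noncomputable def rotL (n : ℕ) (co si : ℝ) : Pl n →ₗ[ℂ] Pl n where
  toFun z := Pl.mk n ((cf (rr n) : ℂ) * ((co : ℂ) * z.pt.1 + si * z.pt.2),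
    (cf (rr n) : ℂ) * (I * (-si * z.pt.1 + co * z.pt.2)))
  map_add' x y := by
    apply Prod.ext
    · change (cf (rr n) : ℂ) * ((co : ℂ) * (x.pt.1 + y.pt.1) + si * (x.pt.2 + y.pt.2))
        = (cf (rr n) : ℂ) * ((co : ℂ) * x.pt.1 + si * x.pt.2)
          + (cf (rr n) : ℂ) * ((co : ℂ) * y.pt.1 + si * y.pt.2)
      ring
    · change (cf (rr n) : ℂ) * (I * (-si * (x.pt.1 + y.pt.1) + co * (x.pt.2 + y.pt.2)))
        = (cf (rr n) : ℂ) * (I * (-si * x.pt.1 + co * x.pt.2))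
          + (cf (rr n) : ℂ) * (I * (-si * y.pt.1 + co * y.pt.2))
      ring
  map_smul' a x := by
    apply Prod.ext
    · change (cf (rr n) : ℂ) * ((co : ℂ) * (a * x.pt.1) + si * (a * x.pt.2))
        = a * ((cf (rr n) : ℂ) * ((co : ℂ) * x.pt.1 + si * x.pt.2))
      ring
    · change (cf (rr n) : ℂ) * (I * (-si * (a * x.pt.1) + co * (a * x.pt.2)))
        = a * ((cf (rr n) : ℂ) * (I * (-si * x.pt.1 + co * x.pt.2)))
      ring

/-- the functional, linear map -/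
noncomputable def phiL (n : ℕ) : Pl n →ₗ[ℂ] ℂ where
  toFun z := (Real.sqrt (1 + rr n ^ 2 / 100) : ℂ) * z.pt.1
  map_add' x y := by
    change (Real.sqrt (1 + rr n ^ 2 / 100) : ℂ) * (x.pt.1 + y.pt.1) = _
    ring
  map_smul' a x := by
    change (Real.sqrt (1 + rr n ^ 2 / 100) : ℂ) * (a * x.pt.1) = a * _
    ring

theorem phiL_bound (n : ℕ) (z : Pl n) : ‖phiL n z‖ ≤ 1 * ‖z‖ := by
  rw [one_mul]
  apply le_of_sq_le_sq _ (norm_nonneg z)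
  rw [Pl.norm_sq]
  have h := fr_phi (rr_pos n) z.pt
  have e : ‖phiL n z‖ ^ 2 = (1 + rr n ^ 2 / 100) * ‖z.pt.1‖ ^ 2 := by
    change ‖(Real.sqrt (1 + rr n ^ 2 / 100) : ℂ) * z.pt.1‖ ^ 2 = _
    rw [norm_mul, mul_pow, Complex.norm_real, Real.norm_eq_abs, sq_abs, Real.sq_sqrt (by positivity)]
  rw [e]
  exact h

/-- the functional on the plane -/
noncomputable def phi (n : ℕ) : Pl n →L[ℂ] ℂ := (phiL n).mkContinuous 1 (phiL_bound n)

theorem phi_apply (n : ℕ) (z : Pl n) : phi n z = (Real.sqrt (1 + rr n ^ 2 / 100) : ℂ) * z.pt.1 := rfl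

theorem rotL_bound (n : ℕ) (hn : rr n ≤ 1 / 100000) {co si : ℝ} (h : co ^ 2 + si ^ 2 = 1)
    (z : Pl n) : ‖rotL n co si z‖ ≤ 1 * ‖z‖ := by
  rw [one_mul]
  apply Pl.norm_le_of_fr (norm_nonneg z)
  rw [Pl.norm_sq]
  exact fr_rot (rr_pos n) hn h z.pt

/-- all properties of the construction -/
theorem setup (n : ℕ) (hn : rr n ≤ 1 / 100000) :
    ∃ (T : XX →L[ℂ] XX) (x₀ : XX) (f₀ : XX →L[ℂ] ℂ) (co si : ℝ),
      ‖T‖ = 1 ∧ ‖x₀‖ = 1 ∧ ‖f₀‖ = 1 ∧ 1 - 9 * rr n ^ 2 ≤ (f₀ x₀).re ∧ f₀ (T x₀) = 1 ∧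
      (∀ v : Pl n, T (lp.single 2 n v) = lp.single 2 n
        (Pl.mk n ((cf (rr n) : ℂ) * ((co : ℂ) * v.pt.1 + si * v.pt.2),
          (cf (rr n) : ℂ) * (I * (-si * v.pt.1 + co * v.pt.2))))) ∧
      (∀ v : Pl n, f₀ (lp.single 2 n v) = (Real.sqrt (1 + rr n ^ 2 / 100) : ℂ) * v.pt.1) ∧
      0 ≤ si ∧ si ≤ 3 * rr n ∧ 1 - 9 * rr n ^ 2 ≤ co ∧ co ≤ 1 ∧
      ‖(x₀ n).pt.1 - 1‖ ≤ 1 / 10000 ∧ ‖(x₀ n).pt.2‖ ≤ 1 / 10000 := by
  have hr := rr_pos n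
  obtain ⟨co, si, h1, h2, h3, h4, h5, h6⟩ := exists_angle hr hn
  set r := rr n with hrdef
  set R : Pl n →L[ℂ] Pl n := (rotL n co si).mkContinuous 1 (rotL_bound n hn h1) with hR
  set T : XX →L[ℂ] XX := (lp.singleContinuousLinearMap ℂ Pl 2 n).comp
    (R.comp (lp.evalCLM ℂ Pl 2 n)) with hT
  set f₀ : XX →L[ℂ] ℂ := (phi n).comp (lp.evalCLM ℂ Pl 2 n) with hf
  have hm : 0 < 1 - r ^ 2 / 100 := by nlinarith
  set q : ℝ := Real.sqrt (1 - r ^ 2 / 100) with hq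
  have hq0 : 0 < q := Real.sqrt_pos.mpr hm
  have hq2 : q ^ 2 = 1 - r ^ 2 / 100 := Real.sq_sqrt hm.le
  set z₀ : Pl n := (((1 / q : ℝ) : ℂ)) • Pl.mk n ((co : ℂ), (si : ℂ)) with hz
  set x₀ : XX := lp.single 2 n z₀ with hx
  have hz1 : z₀.pt.1 = ((1 / q : ℝ) : ℂ) * co := rfl
  have hz2 : z₀.pt.2 = ((1 / q : ℝ) : ℂ) * si := rfl
  have hzn : ‖z₀‖ = 1 := by
    have e : ‖Pl.mk n ((co : ℂ), (si : ℂ))‖ = q := by
      rw [Pl.norm_def]
      have : fr (rr n) (Pl.mk n ((co : ℂ), (si : ℂ))).pt = 1 - r ^ 2 / 100 := fr_min hr h1 h2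
      rw [this]
    rw [hz, norm_smul, e, Complex.norm_real, Real.norm_of_nonneg (by positivity)]
    field_simp
  have hxn : ‖x₀‖ = 1 := by rw [hx, lp.norm_single (by norm_num), hzn]
  have hTs : ∀ v : Pl n, T (lp.single 2 n v) = lp.single 2 n
        (Pl.mk n ((cf (rr n) : ℂ) * ((co : ℂ) * v.pt.1 + si * v.pt.2),
          (cf (rr n) : ℂ) * (I * (-si * v.pt.1 + co * v.pt.2)))) := by
    intro v
    have e : lp.evalCLM ℂ Pl 2 n (lp.single 2 n v) = v := lp.single_apply_self 2 n v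
    change lp.single 2 n (R (lp.evalCLM ℂ Pl 2 n (lp.single 2 n v))) = _
    rw [e]
    rfl
  have hfs : ∀ v : Pl n, f₀ (lp.single 2 n v) = (Real.sqrt (1 + rr n ^ 2 / 100) : ℂ) * v.pt.1 := by
    intro v
    have e : lp.evalCLM ℂ Pl 2 n (lp.single 2 n v) = v := lp.single_apply_self 2 n v
    change phi n (lp.evalCLM ℂ Pl 2 n (lp.single 2 n v)) = _
    rw [e]
    rfl
  have hTn : ‖T‖ ≤ 1 := by
    apply ContinuousLinearMap.opNorm_le_bound _ zero_le_one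
    intro x
    change ‖lp.single 2 n (R (lp.evalCLM ℂ Pl 2 n x))‖ ≤ _
    rw [lp.norm_single (by norm_num)]
    calc ‖R (lp.evalCLM ℂ Pl 2 n x)‖ ≤ 1 * ‖lp.evalCLM ℂ Pl 2 n x‖ := rotL_bound n hn h1 _
      _ ≤ 1 * ‖x‖ := by
          gcongr
          exact lp.norm_apply_le_norm (by norm_num) x n
  have hfn : ‖f₀‖ ≤ 1 := by
    apply ContinuousLinearMap.opNorm_le_bound _ zero_le_one
    intro x
    calc ‖f₀ x‖ ≤ 1 * ‖lp.evalCLM ℂ Pl 2 n x‖ := phiL_bound n _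
      _ ≤ 1 * ‖x‖ := by
          gcongr
          exact lp.norm_apply_le_norm (by norm_num) x n
  have hval : f₀ (T x₀) = 1 := by
    rw [hx, hTs, hfs]
    change (Real.sqrt (1 + rr n ^ 2 / 100) : ℂ) * ((cf (rr n) : ℂ) * ((co : ℂ) * z₀.pt.1 + si * z₀.pt.2)) = 1
    rw [hz1, hz2]
    have e1 : cf (rr n) = q / Real.sqrt (1 + r ^ 2 / 100) := by
      unfold cf
      rw [Real.sqrt_div hm.le]
    have hp : 0 < Real.sqrt (1 + r ^ 2 / 100) := Real.sqrt_pos.mpr (by positivity)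
    have e2 : (Real.sqrt (1 + r ^ 2 / 100)) * (cf (rr n) * (co * (1 / q * co) + si * (1 / q * si))) = 1 := by
      rw [e1]
      have : co * (1 / q * co) + si * (1 / q * si) = 1 / q := by
        calc co * (1 / q * co) + si * (1 / q * si) = (co ^ 2 + si ^ 2) * (1 / q) := by ring
          _ = 1 / q := by rw [h1, one_mul]
      rw [this]
      field_simp
    exact_mod_cast e2
  have hT1 : 1 ≤ ‖T‖ := by
    have : ‖f₀ (T x₀)‖ ≤ ‖f₀‖ * (‖T‖ * ‖x₀‖) := by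
      calc ‖f₀ (T x₀)‖ ≤ ‖f₀‖ * ‖T x₀‖ := f₀.le_opNorm _
        _ ≤ _ := by gcongr; exact T.le_opNorm _
    rw [hval, norm_one, hxn, mul_one] at this
    nlinarith [norm_nonneg T, norm_nonneg f₀]
  have hf1 : 1 ≤ ‖f₀‖ := by
    have : ‖f₀ (T x₀)‖ ≤ ‖f₀‖ * (‖T‖ * ‖x₀‖) := by
      calc ‖f₀ (T x₀)‖ ≤ ‖f₀‖ * ‖T x₀‖ := f₀.le_opNorm _
        _ ≤ _ := by gcongr; exact T.le_opNorm _
    rw [hval, norm_one, hxn, mul_one] at this
    nlinarith [norm_nonneg T, norm_nonneg f₀]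
  have hq1 : q ≤ 1 := by
    have : q ^ 2 ≤ 1 := by rw [hq2]; nlinarith [sq_nonneg r]
    nlinarith
  have hq3 : 1 - r ^ 2 ≤ q := by
    apply le_of_sq_le_sq _ hq0.le
    rw [hq2]
    have hr2 : r ^ 2 ≤ 1 := by nlinarith
    nlinarith [mul_nonneg (sq_nonneg r) (sub_nonneg.mpr hr2)]
  have hqi : 1 ≤ 1 / q := by rw [le_div_iff₀ hq0]; linarith
  have hqi2 : 1 / q ≤ 1 + 1 / 20000 := by
    rw [div_le_iff₀ hq0]; nlinarith
  have hco0 : 0 ≤ co := by nlinarith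
  refine ⟨T, x₀, f₀, co, si, le_antisymm hTn hT1, hxn, le_antisymm hfn hf1, ?_, hval, hTs, hfs,
    h3, h4, h5, h6, ?_, ?_⟩
  · rw [hx, hfs, hz1]
    have e : ((Real.sqrt (1 + rr n ^ 2 / 100) : ℂ) * (((1 / q : ℝ) : ℂ) * (co : ℂ))).re
        = Real.sqrt (1 + rr n ^ 2 / 100) * (1 / q * co) := by
      rw [← Complex.ofReal_mul, ← Complex.ofReal_mul, Complex.ofReal_re]
    rw [e]
    have hp : 1 ≤ Real.sqrt (1 + rr n ^ 2 / 100) := by
      rw [Real.one_le_sqrt]; nlinarith [sq_nonneg (rr n)]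
    have h7 : co ≤ 1 / q * co := by nlinarith
    have h8 : 1 / q * co ≤ Real.sqrt (1 + rr n ^ 2 / 100) * (1 / q * co) := by
      have : 0 ≤ 1 / q * co := by positivity
      nlinarith
    linarith
  · have e : (x₀ n) = z₀ := lp.single_apply_self 2 n z₀
    rw [e, hz1, ← Complex.ofReal_mul, ← Complex.ofReal_one, ← Complex.ofReal_sub,
      Complex.norm_real, Real.norm_eq_abs, abs_le]
    constructor
    · nlinarith
    · nlinarith
  · have e : (x₀ n) = z₀ := lp.single_apply_self 2 n z₀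
    rw [e, hz2, ← Complex.ofReal_mul, Complex.norm_real, Real.norm_eq_abs, abs_le]
    constructor
    · have : 0 ≤ 1 / q * si := by positivity
      linarith
    · nlinarith

end Q96.NU
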