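import Pool.Agent.Q96.NU.FrB
import Pool.Agent.Q176.NU.C

/-!
# The planes and their `ℓ₂` sum
-/

namespace Q96.NU

open scoped ENNReal

/-- the scales -/
noncomputable def rr (n : ℕ) : ℝ := 1 / ((n : ℝ) + 1)

theorem rr_pos (n : ℕ) : 0 < rr n := by unfold rr; positivity

theorem rr_le (n : ℕ) : rr n ≤ 1 := by
  unfold rr
  rw [div_le_one (by positivity)]
  linarith [n.cast_nonneg (α := ℝ)]

/-- the plane with the norm `√(fr (rr n))` -/
def Pl (_ : ℕ) : Type := ℂ × ℂ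

instance (n : ℕ) : AddCommGroup (Pl n) := inferInstanceAs (AddCommGroup (ℂ × ℂ))
instance (n : ℕ) : Module ℂ (Pl n) := inferInstanceAs (Module ℂ (ℂ × ℂ))

/-- the point of `ℂ²` -/
def Pl.pt {n : ℕ} (z : Pl n) : ℂ × ℂ := z

/-- the vector of the plane -/
def Pl.mk (n : ℕ) (z : ℂ × ℂ) : Pl n := z

noncomputable instance (n : ℕ) : Norm (Pl n) := ⟨fun z => Real.sqrt (fr (rr n) z.pt)⟩

theorem Pl.norm_def {n : ℕ} (z : Pl n) : ‖z‖ = Real.sqrt (fr (rr n) z.pt) := rfl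

theorem Pl.core (n : ℕ) : NormedSpace.Core ℂ (Pl n) where
  norm_nonneg z := Real.sqrt_nonneg _
  norm_smul c z := by
    have h : fr (rr n) (c • z.pt) = ‖c‖ ^ 2 * fr (rr n) z.pt := fr_smul _ _ _
    change Real.sqrt (fr (rr n) (c • z.pt)) = ‖c‖ * Real.sqrt (fr (rr n) z.pt)
    rw [h, Real.sqrt_mul (by positivity), Real.sqrt_sq (norm_nonneg c)]
  norm_triangle x y := sqrt_fr_add (rr_pos n) (rr_le n) (Q176.NU.stmC (rr n) (rr_pos n) (rr_le n)).1 x.pt y.pt
  norm_eq_zero_iff z := by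
    constructor
    · intro h
      rw [Pl.norm_def, Real.sqrt_eq_zero (fr_nonneg (rr_pos n) (rr_le n) _)] at h
      exact fr_eq_zero (rr_pos n) (rr_le n) h
    · rintro rfl
      rw [Pl.norm_def]
      have : fr (rr n) (0 : Pl n).pt = 0 := fr_zero _
      rw [this, Real.sqrt_zero]

noncomputable instance (n : ℕ) : NormedAddCommGroup (Pl n) := NormedAddCommGroup.ofCore (Pl.core n)

noncomputable instance (n : ℕ) : NormedSpace ℂ (Pl n) := NormedSpace.ofCore (Pl.core n)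

instance (n : ℕ) : FiniteDimensional ℂ (Pl n) := inferInstanceAs (FiniteDimensional ℂ (ℂ × ℂ))

instance (n : ℕ) : CompleteSpace (Pl n) := FiniteDimensional.complete ℂ (Pl n)

theorem Pl.norm_sq {n : ℕ} (z : Pl n) : ‖z‖ ^ 2 = fr (rr n) z.pt := by
  rw [Pl.norm_def, Real.sq_sqrt (fr_nonneg (rr_pos n) (rr_le n) _)]

theorem Pl.quad (n : ℕ) : Quad (Pl n) (4 / 5) (6 / 5) := by
  intro x y
  rw [Pl.norm_sq, Pl.norm_sq, Pl.norm_sq, Pl.norm_sq]
  have h := (Q176.NU.stmC (rr n) (rr_pos n) (rr_le n)).2 x.pt y.pt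
  have h1 := fr_ge (rr_pos n) (rr_le n) y.pt
  have h2 := fr_le (rr_pos n) (rr_le n) y.pt
  have h3 := sq2_nonneg y.pt
  have e1 : (x + y).pt = x.pt + y.pt := rfl
  have e2 : (x - y).pt = x.pt - y.pt := rfl
  rw [e1, e2]
  have e3 : ‖y.pt.1‖ ^ 2 + ‖y.pt.2‖ ^ 2 = sq2 y.pt := rfl
  rw [e3] at h
  constructor
  · linarith [h.1]
  · linarith [h.2]

/-- the space -/
abbrev XX : Type := lp Pl 2

theorem hasSum_sq (x : XX) : HasSum (fun n => ‖x n‖ ^ 2) (‖x‖ ^ 2) := by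
  have h := lp.hasSum_norm (p := 2) (by norm_num) x
  simpa using h

theorem XX.quad : Quad XX (4 / 5) (6 / 5) := by
  intro x y
  have hx := hasSum_sq x
  have hy := hasSum_sq y
  have ha := hasSum_sq (x + y)
  have hb := hasSum_sq (x - y)
  have hm := ((ha.add hb).div_const 2).sub hx
  constructor
  · refine hasSum_le ?_ (hy.mul_left (4 / 5)) hm
    intro n
    exact (Pl.quad n (x n) (y n)).1
  · refine hasSum_le ?_ hm (hy.mul_left (6 / 5))
    intro n
    exact (Pl.quad n (x n) (y n)).2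

end Q96.NU
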