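import Mathlib

/-!
# Bishop–Phelps–Bollobás property for numerical radius and property (nu): definitions

Statements of the steps of the project `MP_3cb207_an` (helper96).
-/

namespace Q96.NU

section Defs

variable (𝕜 : Type*) [RCLike 𝕜] (X : Type*) [NormedAddCommGroup X] [NormedSpace 𝕜 X]

variable {𝕜 X} in
/-- the pair `(x, f)` belongs to `Π(X)` -/
def IsPi (x : X) (f : X →L[𝕜] 𝕜) : Prop := ‖x‖ = 1 ∧ ‖f‖ = 1 ∧ f x = 1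

variable {𝕜 X} in
/-- the numerical radius of `T` -/
noncomputable def nu (T : X →L[𝕜] X) : ℝ :=
  sSup {r : ℝ | ∃ (x : X) (f : X →L[𝕜] 𝕜), IsPi x f ∧ r = ‖f (T x)‖}

/-- the Bishop–Phelps–Bollobás property for the numerical radius -/
def BPBpNu : Prop :=
  ∀ ε : ℝ, 0 < ε → ∃ η : ℝ, 0 < η ∧
    ∀ (T : X →L[𝕜] X) (x₀ : X) (f₀ : X →L[𝕜] 𝕜), nu T = 1 → IsPi x₀ f₀ →
      1 - η < ‖f₀ (T x₀)‖ →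
      ∃ (S : X →L[𝕜] X) (x₁ : X) (f₁ : X →L[𝕜] 𝕜), IsPi x₁ f₁ ∧ nu S = 1 ∧ ‖f₁ (S x₁)‖ = 1 ∧
        ‖S - T‖ < ε ∧ ‖x₁ - x₀‖ < ε ∧ ‖f₁ - f₀‖ < ε

/-- property (nu) -/
def PropNu : Prop :=
  ∀ ε : ℝ, 0 < ε → ∃ η : ℝ, 0 < η ∧
    ∀ (T : X →L[𝕜] X) (x₀ : X) (f₀ : X →L[𝕜] 𝕜), ‖T‖ = 1 → ‖x₀‖ = 1 → ‖f₀‖ = 1 →
      1 - η < RCLike.re (f₀ x₀) → ‖f₀ (T x₀)‖ = 1 →
      ∃ (S : X →L[𝕜] X) (x₁ : X) (f₁ : X →L[𝕜] 𝕜), ‖S‖ = 1 ∧ ‖x₁‖ = 1 ∧ ‖f₁‖ = 1 ∧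
        f₁ x₁ = 1 ∧ ‖f₁ (S x₁)‖ = 1 ∧
        ‖S - T‖ < ε ∧ ‖x₁ - x₀‖ < ε ∧ ‖f₁ - f₀‖ < ε

/-- two-sided quadratic estimate of the square of the norm (2-uniform convexity and
2-uniform smoothness) -/
def Quad (X : Type*) [NormedAddCommGroup X] (c C : ℝ) : Prop :=
  ∀ x y : X, c * ‖y‖ ^ 2 ≤ (‖x + y‖ ^ 2 + ‖x - y‖ ^ 2) / 2 - ‖x‖ ^ 2 ∧
    (‖x + y‖ ^ 2 + ‖x - y‖ ^ 2) / 2 - ‖x‖ ^ 2 ≤ C * ‖y‖ ^ 2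

/-- the square of the norm on `ℂ²` with parameter `r` -/
noncomputable def fr (r : ℝ) (z : ℂ × ℂ) : ℝ :=
  (‖z.1‖ ^ 2 + ‖z.2‖ ^ 2) *
    (1 + r ^ 2 / 100 *
      Real.cos (2 * ((starRingEnd ℂ) z.1 * z.2).re / (r * (‖z.1‖ ^ 2 + ‖z.2‖ ^ 2))))

end Defs

/-- JOB A: the numerical index of a complex space is at least `1 / 8` -/
def StmA : Prop :=
  ∀ (X : Type) [NormedAddCommGroup X] [NormedSpace ℂ X] (T : X →L[ℂ] X), ‖T‖ ≤ 8 * nu T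

/-- JOB B: perturbation to operators which attain their numerical radius -/
def StmB : Prop :=
  ∀ (X : Type) [NormedAddCommGroup X] [NormedSpace ℂ X] [CompleteSpace X] (c C : ℝ), 0 < c →
    0 < C → Quad X c C → ∀ ε : ℝ, 0 < ε → ∃ η : ℝ, 0 < η ∧
    ∀ (T : X →L[ℂ] X) (x₀ : X) (f₀ : X →L[ℂ] ℂ), IsPi x₀ f₀ →
      nu T - η < ‖f₀ (T x₀)‖ →
      ∃ (S : X →L[ℂ] X) (x₁ : X) (f₁ : X →L[ℂ] ℂ), IsPi x₁ f₁ ∧ ‖f₁ (S x₁)‖ = nu S ∧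
        ‖S - T‖ < ε ∧ ‖x₁ - x₀‖ < ε ∧ ‖f₁ - f₀‖ < ε

/-- JOB C: the function `fr r` is between multiples of the Euclidean norm, convex, with
second differences comparable to the square of the Euclidean norm -/
def StmC : Prop :=
  ∀ r : ℝ, 0 < r → r ≤ 1 → ConvexOn ℝ Set.univ (fr r) ∧
    (∀ x y : ℂ × ℂ, 89 / 100 * (‖y.1‖ ^ 2 + ‖y.2‖ ^ 2) ≤ (fr r (x + y) + fr r (x - y)) / 2 - fr r x ∧
      (fr r (x + y) + fr r (x - y)) / 2 - fr r x ≤ 111 / 100 * (‖y.1‖ ^ 2 + ‖y.2‖ ^ 2))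

end Q96.NU
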